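import Pool.Agent.Helper44.QC.Self
import Pool.Agent.Helper73.QC.Add
import Pool.Agent.Helper73.QC.Defs

/-!
# The self-dual case, with one of the ten exponents killed by a power of an odd prime
-/

open Finset

namespace Pool.Agent.Helper44.QC

open Pool.Agent.Helper73.LF Pool.Agent.Helper73.QC

variable {K L : Type} [Field K] [Fintype K] [Field L] {p n : ℕ} [NeZero n]

omit [NeZero n] in
theorem residues_kill {a : Fin 5 → ZMod n} {c : ZMod n} (h : ∀ i, c * a i = 0) (i : Fin 10) :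
    c * residues a i = 0 := by
  have h0 := h 0
  have h1 := h 1
  have h2 := h 2
  have h3 := h 3
  have h4 := h 4
  fin_cases i
  · exact h0
  · exact h1
  · exact h2
  · exact h3
  · exact h4
  · change c * -(a 0 + a 1 + a 4) = 0
    linear_combination - h0 - h1 - h4
  · change c * -(a 2 + a 3 + a 4) = 0
    linear_combination - h2 - h3 - h4
  · change c * (a 0 + a 2 + a 4) = 0
    linear_combination h0 + h2 + h4
  · change c * (a 1 + a 3 + a 4) = 0
    linear_combination h1 + h3 + h4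
  · change c * -(a 0 + a 1 + a 2 + a 3 + a 4) = 0
    linear_combination - h0 - h1 - h2 - h3 - h4

omit [NeZero n] in
/-- an odd prime a power of which kills a residue divides `p ^ f + 1` -/
theorem dvd_of_kill {N r j : ℕ} (hr : r.Prime) {R : ZMod n} (hR : R ≠ 0)
    (h : (r : ZMod n) ^ j * R = 0) (hN : ((N : ℕ) : ZMod n) * R = 0) : r ∣ N := by
  by_contra hnd
  have hcop : Nat.Coprime (r ^ j) N := ((Nat.Prime.coprime_iff_not_dvd hr).2 hnd).pow_left j
  obtain ⟨α, β, hαβ⟩ := Nat.isCoprime_iff_coprime.2 hcop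
  have h7 := congrArg (Int.cast : ℤ → ZMod n) hαβ
  push_cast at h7
  apply hR
  linear_combination (α : ZMod n) * h + (β : ZMod n) * hN - R * h7

/-- The sum over the complement of the quadrilateral in the self-dual case. -/
theorem quad_ne_residue [Fact p.Prime] [CharZero L] {f r j : ℕ}
    (hK : Fintype.card K = p ^ (2 * f)) {τ : MulChar K L} (hτ : orderOf τ = Fintype.card K - 1)
    (hr : r.Prime) (hr2 : r ≠ 2) {a : Fin 5 → ZMod n} (ha : ∀ i, (p : ZMod n) ^ f * a i = -a i)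
    (hdeg : ∀ i, residues a i ≠ 0) (h : ∃ i, (r : ZMod n) ^ j * residues a i = 0) :
    quad (ch τ (a 0)) (ch τ (a 1)) (ch τ (a 2)) (ch τ (a 3)) (ch τ (a 4)) ≠
      -2 * Fintype.card K := by
  have : CharP K p := charP_of_card_eq_prime_pow hK
  have : Fact r.Prime := ⟨hr⟩
  have hN1 : ((p ^ f + 1 : ℕ) : ZMod n) = (p : ZMod n) ^ f + 1 := by push_cast; ring
  have hN : ∀ i, ((p ^ f + 1 : ℕ) : ZMod n) * a i = 0 := by
    intro i
    rw [hN1]
    linear_combination ha i
  have hKN : ((Fintype.card K - 1 : ℕ) : ZMod n) =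
      ((p : ZMod n) ^ f - 1) * ((p ^ f + 1 : ℕ) : ZMod n) := by
    rw [Nat.cast_sub Fintype.card_pos, hK]
    push_cast
    ring
  have hKa : ∀ i, ((Fintype.card K - 1 : ℕ) : ZMod n) * a i = 0 := by
    intro i
    rw [hKN, mul_assoc, hN, mul_zero]
  obtain ⟨i0, hi0⟩ := h
  have hrd : r ∣ p ^ f + 1 := dvd_of_kill hr (hdeg i0) hi0 (residues_kill hN i0)
  have hk : ∀ i, ch τ (a i) ^ (p ^ f + 1) = 1 := fun i => ch_pow hτ (hKa i) (hN i)
  refine quad_ne (r := r) (j := j) hK hr2 hrd (hk 0) (hk 1) (hk 2) (hk 3) (hk 4) ?_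
  have hadd : ∀ {x y : ZMod n}, ((Fintype.card K - 1 : ℕ) : ZMod n) * x = 0 →
      ((Fintype.card K - 1 : ℕ) : ZMod n) * y = 0 →
        ((Fintype.card K - 1 : ℕ) : ZMod n) * (x + y) = 0 := by
    intro x y hx hy
    rw [mul_add, hx, hy, add_zero]
  have hpow : ∀ {x : ZMod n}, ((Fintype.card K - 1 : ℕ) : ZMod n) * x = 0 →
      (r : ZMod n) ^ j * x = 0 → ch τ x ^ r ^ j = 1 := fun hx h =>
    ch_pow hτ hx (by push_cast; exact h)
  have three : ∀ {x y z : ZMod n}, ((Fintype.card K - 1 : ℕ) : ZMod n) * x = 0 →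
      ((Fintype.card K - 1 : ℕ) : ZMod n) * y = 0 →
      ((Fintype.card K - 1 : ℕ) : ZMod n) * z = 0 →
        ch τ (x + y + z) = ch τ x * ch τ y * ch τ z := by
    intro x y z hx hy hz
    rw [ch_add hτ (hadd hx hy) hz, ch_add hτ hx hy]
  have k0 := hKa 0
  have k1 := hKa 1
  have k2 := hKa 2
  have k3 := hKa 3
  have k4 := hKa 4
  fin_cases i0
  · exact Or.inl (hpow k0 hi0)
  · exact Or.inr (Or.inl (hpow k1 hi0))
  · exact Or.inr (Or.inr (Or.inl (hpow k2 hi0)))
  · exact Or.inr (Or.inr (Or.inr (Or.inl (hpow k3 hi0))))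
  · exact Or.inr (Or.inr (Or.inr (Or.inr (Or.inl (hpow k4 hi0)))))
  · refine Or.inr (Or.inr (Or.inr (Or.inr (Or.inr (Or.inl ?_)))))
    rw [← three k0 k1 k4]
    refine hpow (hadd (hadd k0 k1) k4) ?_
    have h5 : (r : ZMod n) ^ j * -(a 0 + a 1 + a 4) = 0 := hi0
    linear_combination - h5
  · refine Or.inr (Or.inr (Or.inr (Or.inr (Or.inr (Or.inr (Or.inl ?_))))))
    rw [← three k2 k3 k4]
    refine hpow (hadd (hadd k2 k3) k4) ?_
    have h5 : (r : ZMod n) ^ j * -(a 2 + a 3 + a 4) = 0 := hi0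
    linear_combination - h5
  · refine Or.inr (Or.inr (Or.inr (Or.inr (Or.inr (Or.inr (Or.inr (Or.inl ?_)))))))
    rw [← three k0 k2 k4]
    exact hpow (hadd (hadd k0 k2) k4) hi0
  · refine Or.inr (Or.inr (Or.inr (Or.inr (Or.inr (Or.inr (Or.inr (Or.inr (Or.inl ?_))))))))
    rw [← three k1 k3 k4]
    exact hpow (hadd (hadd k1 k3) k4) hi0
  · refine Or.inr (Or.inr (Or.inr (Or.inr (Or.inr (Or.inr (Or.inr (Or.inr (Or.inr ?_))))))))
    rw [← three k0 k1 k2, ← three (hadd (hadd k0 k1) k2) k3 k4]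
    refine hpow (hadd (hadd (hadd (hadd k0 k1) k2) k3) k4) ?_
    have h5 : (r : ZMod n) ^ j * -(a 0 + a 1 + a 2 + a 3 + a 4) = 0 := hi0
    linear_combination - h5

end Pool.Agent.Helper44.QC
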