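import Pool.Agent.Helper73.QC.Defs

/-!
# A finite check for exponents modulo a small prime

If all the heights of the multiples of five exponents modulo `11` are odd, the discriminant `disc`
of the ten residues is not zero.
-/

open Finset

namespace Pool.Agent.Helper44.QC

open Pool.Agent.Helper73.QC

/-- the polynomial `3 (S₂³ - 2 S₂ S₄ + 8 S₆ - 2 V) - 4 S₃²` in the ten residues, `Sₖ` their power
sums, `V` the sum over the five points of the third power of the sum of the squares of the four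
residues at the point -/
def disc {R : Type} [CommRing R] (b : Fin 10 → R) : R :=
  3 * ((∑ i, b i ^ 2) ^ 3 - 2 * (∑ i, b i ^ 2) * (∑ i, b i ^ 4) + 8 * (∑ i, b i ^ 6) -
    2 * ((b 0 ^ 2 + b 1 ^ 2 + b 4 ^ 2 + b 5 ^ 2) ^ 3 + (b 2 ^ 2 + b 3 ^ 2 + b 4 ^ 2 + b 6 ^ 2) ^ 3 +
      (b 0 ^ 2 + b 2 ^ 2 + b 8 ^ 2 + b 9 ^ 2) ^ 3 + (b 1 ^ 2 + b 3 ^ 2 + b 7 ^ 2 + b 9 ^ 2) ^ 3 +
      (b 5 ^ 2 + b 6 ^ 2 + b 7 ^ 2 + b 8 ^ 2) ^ 3)) - 4 * (∑ i, b i ^ 3) ^ 2

/-- conjunction over the natural numbers less than `n` -/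
def allLT : ℕ → (ℕ → Bool) → Bool
  | 0, _ => true
  | n + 1, f => f n && allLT n f

theorem allLT_iff {n : ℕ} {f : ℕ → Bool} : allLT n f = true ↔ ∀ i < n, f i = true := by
  induction n with
  | zero => simp [allLT]
  | succ n ih =>
    rw [allLT, Bool.and_eq_true, ih]
    constructor
    · rintro ⟨h1, h2⟩ i hi
      rcases Nat.lt_succ_iff_lt_or_eq.1 hi with h | h
      · exact h2 i h
      · rw [h]
        exact h1
    · intro h
      exact ⟨h n (Nat.lt_succ_self n), fun i hi => h i (Nat.lt_succ_of_lt hi)⟩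

/-- the condition for one vector -/
def test (r b0 b1 b2 b3 b4 b5 b6 b7 b8 b9 : ℕ) : Bool :=
  Nat.beq b0 0 || Nat.beq b1 0 || Nat.beq b2 0 || Nat.beq b3 0 || Nat.beq b4 0 || Nat.beq b5 0 ||
  Nat.beq b6 0 || Nat.beq b7 0 || Nat.beq b8 0 || Nat.beq b9 0 ||
  !(allLT r fun h => Nat.beq h 0 || !(Nat.beq ((h * b0 % r + h * b1 % r + h * b2 % r +
    h * b3 % r + h * b4 % r + h * b5 % r + h * b6 % r + h * b7 % r + h * b8 % r + h * b9 % r) %
      (2 * r)) 0)) ||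
  !(Nat.beq
    ((3 * ((b0 ^ 2 + b1 ^ 2 + b2 ^ 2 + b3 ^ 2 + b4 ^ 2 + b5 ^ 2 + b6 ^ 2 + b7 ^ 2 + b8 ^ 2 +
      b9 ^ 2) ^ 3 + 8 * (b0 ^ 6 + b1 ^ 6 + b2 ^ 6 + b3 ^ 6 + b4 ^ 6 + b5 ^ 6 + b6 ^ 6 + b7 ^ 6 +
      b8 ^ 6 + b9 ^ 6))) % r)
    ((6 * ((b0 ^ 2 + b1 ^ 2 + b2 ^ 2 + b3 ^ 2 + b4 ^ 2 + b5 ^ 2 + b6 ^ 2 + b7 ^ 2 + b8 ^ 2 +
      b9 ^ 2) * (b0 ^ 4 + b1 ^ 4 + b2 ^ 4 + b3 ^ 4 + b4 ^ 4 + b5 ^ 4 + b6 ^ 4 + b7 ^ 4 + b8 ^ 4 +
      b9 ^ 4) + ((b0 ^ 2 + b1 ^ 2 + b4 ^ 2 + b5 ^ 2) ^ 3 +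
      (b2 ^ 2 + b3 ^ 2 + b4 ^ 2 + b6 ^ 2) ^ 3 + (b0 ^ 2 + b2 ^ 2 + b8 ^ 2 + b9 ^ 2) ^ 3 +
      (b1 ^ 2 + b3 ^ 2 + b7 ^ 2 + b9 ^ 2) ^ 3 + (b5 ^ 2 + b6 ^ 2 + b7 ^ 2 + b8 ^ 2) ^ 3)) +
      4 * (b0 ^ 3 + b1 ^ 3 + b2 ^ 3 + b3 ^ 3 + b4 ^ 3 + b5 ^ 3 + b6 ^ 3 + b7 ^ 3 + b8 ^ 3 +
      b9 ^ 3) ^ 2) % r))

/-- the condition for all the vectors whose first component is one -/
def check (r : ℕ) : Bool :=
  allLT r fun a1 => Nat.beq a1 0 || allLT r fun a4 => Nat.beq a4 0 ||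
    Nat.beq ((3 * r - (1 + a1 + a4)) % r) 0 || allLT r fun a2 => Nat.beq a2 0 ||
      Nat.beq ((1 + a2 + a4) % r) 0 || allLT r fun a3 =>
        test r 1 a1 a2 a3 a4 ((3 * r - (1 + a1 + a4)) % r) ((3 * r - (a2 + a3 + a4)) % r)
          ((1 + a2 + a4) % r) ((a1 + a3 + a4) % r) ((5 * r - (1 + a1 + a2 + a3 + a4)) % r)

section

variable {r : ℕ} [NeZero r]

omit [NeZero r] in
theorem val_eq {x : ZMod r} {m : ℕ} (h : (m : ZMod r) = x) : x.val = m % r := by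
  rw [← h, ZMod.val_natCast]

/-- the test for natural numbers representing ten residues -/
theorem of_test {b : Fin 10 → ZMod r} (hb : ∀ i, b i ≠ 0)
    (ht : test r (b 0).val (b 1).val (b 2).val (b 3).val (b 4).val (b 5).val (b 6).val (b 7).val
      (b 8).val (b 9).val = true) :
    (∃ h < r, h ≠ 0 ∧ (∑ i, h * (b i).val % r) % (2 * r) = 0) ∨ disc b ≠ 0 := by
  have hz : ∀ i, Nat.beq (b i).val 0 = false := by
    intro i
    rw [Bool.eq_false_iff]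
    intro h
    exact hb i ((ZMod.val_eq_zero _).1 (Nat.eq_of_beq_eq_true h))
  rw [test] at ht
  simp only [hz, Bool.false_or, Bool.or_eq_true, Bool.not_eq_true'] at ht
  rcases ht with ht | ht
  · left
    by_contra hcon
    push Not at hcon
    rw [Bool.eq_false_iff] at ht
    apply ht
    rw [allLT_iff]
    intro h hh
    by_cases h0 : h = 0
    · rw [h0]
      rfl
    · rw [Bool.or_eq_true]
      right
      rw [Bool.not_eq_true', Bool.eq_false_iff]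
      intro h1
      have h2 := Nat.eq_of_beq_eq_true h1
      apply hcon h hh h0
      rw [← h2]
      congr 1
      simp only [Fin.sum_univ_succ, Fin.sum_univ_zero]
      simp only [Fin.succ_zero_eq_one, Fin.succ_one_eq_two]
      ring_nf
      rfl
  · right
    intro hD
    rw [Bool.eq_false_iff] at ht
    apply ht
    rw [Nat.beq_eq]
    rw [← ZMod.natCast_eq_natCast_iff']
    push_cast
    simp only [ZMod.natCast_zmod_val]
    rw [disc] at hD
    simp only [Fin.sum_univ_succ, Fin.sum_univ_zero] at hD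
    simp only [Fin.succ_zero_eq_one, Fin.succ_one_eq_two] at hD
    change 3 * ((b 0 ^ 2 + (b 1 ^ 2 + (b 2 ^ 2 + (b 3 ^ 2 + (b 4 ^ 2 + (b 5 ^ 2 + (b 6 ^ 2 +
      (b 7 ^ 2 + (b 8 ^ 2 + (b 9 ^ 2 + 0)))))))))) ^ 3 - 2 * (b 0 ^ 2 + (b 1 ^ 2 + (b 2 ^ 2 +
      (b 3 ^ 2 + (b 4 ^ 2 + (b 5 ^ 2 + (b 6 ^ 2 + (b 7 ^ 2 + (b 8 ^ 2 + (b 9 ^ 2 +
      0)))))))))) * (b 0 ^ 4 + (b 1 ^ 4 + (b 2 ^ 4 + (b 3 ^ 4 + (b 4 ^ 4 + (b 5 ^ 4 + (b 6 ^ 4 +
      (b 7 ^ 4 + (b 8 ^ 4 + (b 9 ^ 4 + 0)))))))))) + 8 * (b 0 ^ 6 + (b 1 ^ 6 + (b 2 ^ 6 +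
      (b 3 ^ 6 + (b 4 ^ 6 + (b 5 ^ 6 + (b 6 ^ 6 + (b 7 ^ 6 + (b 8 ^ 6 + (b 9 ^ 6 +
      0)))))))))) - 2 * ((b 0 ^ 2 + b 1 ^ 2 + b 4 ^ 2 + b 5 ^ 2) ^ 3 +
      (b 2 ^ 2 + b 3 ^ 2 + b 4 ^ 2 + b 6 ^ 2) ^ 3 + (b 0 ^ 2 + b 2 ^ 2 + b 8 ^ 2 + b 9 ^ 2) ^ 3 +
      (b 1 ^ 2 + b 3 ^ 2 + b 7 ^ 2 + b 9 ^ 2) ^ 3 +
      (b 5 ^ 2 + b 6 ^ 2 + b 7 ^ 2 + b 8 ^ 2) ^ 3)) - 4 * (b 0 ^ 3 + (b 1 ^ 3 + (b 2 ^ 3 +
      (b 3 ^ 3 + (b 4 ^ 3 + (b 5 ^ 3 + (b 6 ^ 3 + (b 7 ^ 3 + (b 8 ^ 3 + (b 9 ^ 3 +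
      0)))))))))) ^ 2 = 0 at hD
    linear_combination hD

/-- the check for vectors whose first component is one -/
theorem of_check_one (hr : 1 < r) (hc : check r = true) {a : Fin 5 → ZMod r} (h1 : a 0 = 1)
    (hdeg : ∀ i, residues a i ≠ 0) :
    (∃ h < r, h ≠ 0 ∧ (∑ i, h * (residues a i).val % r) % (2 * r) = 0) ∨
      disc (residues a) ≠ 0 := by
  have hlt : ∀ x : ZMod r, x.val < r := fun x => ZMod.val_lt x
  have hz : ∀ {x : ZMod r}, x ≠ 0 → Nat.beq x.val 0 = false := by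
    intro x hx
    rw [Bool.eq_false_iff]
    intro h
    exact hx ((ZMod.val_eq_zero _).1 (Nat.eq_of_beq_eq_true h))
  have v0 : (residues a 0).val = 1 := by
    change (a 0).val = 1
    rw [h1]
    have : Fact (1 < r) := ⟨hr⟩
    exact ZMod.val_one r
  have v5 : (residues a 5).val = (3 * r - (1 + (a 1).val + (a 4).val)) % r := by
    refine val_eq ?_
    rw [Nat.cast_sub (by have := hlt (a 1); have := hlt (a 4); omega)]
    push_cast
    simp only [ZMod.natCast_zmod_val, ZMod.natCast_self]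
    change _ = -(a 0 + a 1 + a 4)
    rw [h1]
    ring
  have v6 : (residues a 6).val = (3 * r - ((a 2).val + (a 3).val + (a 4).val)) % r := by
    refine val_eq ?_
    rw [Nat.cast_sub (by have := hlt (a 2); have := hlt (a 3); have := hlt (a 4); omega)]
    push_cast
    simp only [ZMod.natCast_zmod_val, ZMod.natCast_self]
    change _ = -(a 2 + a 3 + a 4)
    ring
  have v7 : (residues a 7).val = (1 + (a 2).val + (a 4).val) % r := by
    refine val_eq ?_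
    push_cast
    simp only [ZMod.natCast_zmod_val]
    change _ = a 0 + a 2 + a 4
    rw [h1]
  have v8 : (residues a 8).val = ((a 1).val + (a 3).val + (a 4).val) % r := by
    refine val_eq ?_
    push_cast
    simp only [ZMod.natCast_zmod_val]
    rfl
  have v9 : (residues a 9).val =
      (5 * r - (1 + (a 1).val + (a 2).val + (a 3).val + (a 4).val)) % r := by
    refine val_eq ?_
    rw [Nat.cast_sub (by
      have := hlt (a 1); have := hlt (a 2); have := hlt (a 3); have := hlt (a 4); omega)]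
    push_cast
    simp only [ZMod.natCast_zmod_val, ZMod.natCast_self]
    change _ = -(a 0 + a 1 + a 2 + a 3 + a 4)
    rw [h1]
    ring
  refine of_test hdeg ?_
  rw [v0, v5, v6, v7, v8, v9]
  rw [check, allLT_iff] at hc
  have c1 := hc _ (hlt (a 1))
  rw [hz (show a 1 ≠ 0 from hdeg 1), Bool.false_or, allLT_iff] at c1
  have c2 := c1 _ (hlt (a 4))
  have z5 := hz (hdeg 5)
  rw [v5] at z5
  rw [hz (show a 4 ≠ 0 from hdeg 4), z5, Bool.false_or, Bool.false_or, allLT_iff] at c2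
  have c3 := c2 _ (hlt (a 2))
  have z7 := hz (hdeg 7)
  rw [v7] at z7
  rw [hz (show a 2 ≠ 0 from hdeg 2), z7, Bool.false_or, Bool.false_or, allLT_iff] at c3
  exact c3 _ (hlt (a 3))

omit [NeZero r] in
theorem residues_smul (g : ZMod r) (a : Fin 5 → ZMod r) (i : Fin 10) :
    residues (fun k => g * a k) i = g * residues a i := by
  fin_cases i
  · rfl
  · rfl
  · rfl
  · rfl
  · rfl
  · change -(g * a 0 + g * a 1 + g * a 4) = g * -(a 0 + a 1 + a 4)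
    ring
  · change -(g * a 2 + g * a 3 + g * a 4) = g * -(a 2 + a 3 + a 4)
    ring
  · change g * a 0 + g * a 2 + g * a 4 = g * (a 0 + a 2 + a 4)
    ring
  · change g * a 1 + g * a 3 + g * a 4 = g * (a 1 + a 3 + a 4)
    ring
  · change -(g * a 0 + g * a 1 + g * a 2 + g * a 3 + g * a 4) =
      g * -(a 0 + a 1 + a 2 + a 3 + a 4)
    ring

theorem disc_smul {R : Type} [CommRing R] (g : R) (b : Fin 10 → R) :
    disc (fun i => g * b i) = g ^ 6 * disc b := by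
  have hs : ∀ k, ∑ i, (g * b i) ^ k = g ^ k * ∑ i, b i ^ k := by
    intro k
    rw [mul_sum]
    exact sum_congr rfl fun i _ => by rw [mul_pow]
  rw [disc, disc, hs, hs, hs, hs]
  ring

/-- If the check succeeds, a multiple of the exponents has an even height, or the discriminant of
the residues is not zero. -/
theorem of_check [Fact r.Prime] (hc : check r = true) {a : Fin 5 → ZMod r}
    (hdeg : ∀ i, residues a i ≠ 0) :
    (∃ h : (ZMod r)ˣ, Even ((∑ i, (residues (fun k => (h : ZMod r) * a k) i).val) / r)) ∨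
      disc (residues a) ≠ 0 := by
  have hp : r.Prime := Fact.out
  have ha0 : a 0 ≠ 0 := hdeg 0
  set g : ZMod r := (a 0)⁻¹ with hg
  have hg0 : g ≠ 0 := inv_ne_zero ha0
  have h1 : (fun k => g * a k) 0 = 1 := inv_mul_cancel₀ ha0
  have hdeg' : ∀ i, residues (fun k => g * a k) i ≠ 0 := by
    intro i
    rw [residues_smul]
    exact mul_ne_zero hg0 (hdeg i)
  rcases of_check_one hp.one_lt hc h1 hdeg' with ⟨h, hh, h0, hs⟩ | h
  · left
    have hh0 : (h : ZMod r) ≠ 0 := by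
      intro h2
      rw [ZMod.natCast_eq_zero_iff] at h2
      exact h0 (Nat.eq_zero_of_dvd_of_lt h2 hh)
    refine ⟨Units.mk0 ((h : ZMod r) * g) (mul_ne_zero hh0 hg0), ?_⟩
    have h3 : ∀ i, (residues (fun k => ((Units.mk0 ((h : ZMod r) * g)
        (mul_ne_zero hh0 hg0) : (ZMod r)ˣ) : ZMod r) * a k) i).val =
          h * (residues (fun k => g * a k) i).val % r := by
      intro i
      rw [Units.val_mk0, residues_smul, residues_smul]
      have h4 : ((h * (g * residues a i).val : ℕ) : ZMod r) = (h : ZMod r) * g * residues a i := by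
        push_cast
        rw [ZMod.natCast_zmod_val]
        ring
      exact val_eq h4
    rw [sum_congr rfl fun i _ => h3 i]
    obtain ⟨m, hm⟩ := Nat.dvd_of_mod_eq_zero hs
    rw [hm, mul_assoc, mul_comm 2, mul_assoc, Nat.mul_div_cancel_left _ hp.pos, mul_comm]
    exact even_two_mul m
  · right
    intro h2
    apply h
    have h3 : residues (fun k => g * a k) = fun i => g * residues a i := by
      funext i
      exact residues_smul g a i
    rw [h3, disc_smul, h2, mul_zero]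

end

set_option maxRecDepth 100000 in
theorem check_eleven : check 11 = true := by decide +kernel

/-- exponents modulo `11` -/
theorem eleven {a : Fin 5 → ZMod 11} (hdeg : ∀ i, residues a i ≠ 0) :
    (∃ h : (ZMod 11)ˣ, Even ((∑ i, (residues (fun k => (h : ZMod 11) * a k) i).val) / 11)) ∨
      disc (residues a) ≠ 0 := by
  have : Fact (Nat.Prime 11) := ⟨by norm_num⟩
  exact of_check check_eleven hdeg

end Pool.Agent.Helper44.QC
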