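import Pool.Agent.Helper44.QC.Jac

/-!
# Degenerate sums over the complement of the quadrilateral

`K` has `N ^ 2` elements, `N = p ^ f`, and `N = -1` in the field `κ`.  If five characters with
values in `κ` are killed by `N + 1` and one of the ten characters belonging to the curves at the
boundary is trivial, the sum over the complement of the quadrilateral is two.
-/

open Finset

namespace Pool.Agent.Helper44.QC

open Pool.Agent.Helper73.QC

section

variable {K κ : Type*} [Field K] [Fintype K] [Field κ]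

/-- the substitution `(1 - x, 1 - y)` -/
theorem quad_one_sub {A B C D E : MulChar K κ} (nE : E (-1) = 1) :
    quad A B C D E = quad B A D C E := by
  rw [quad, quad, ← Equiv.sum_comp (Equiv.subLeft (1 : K))]
  refine sum_congr rfl fun x _ => ?_
  rw [← Equiv.sum_comp (Equiv.subLeft (1 : K))]
  refine sum_congr rfl fun y _ => ?_
  rw [Equiv.subLeft_apply, Equiv.subLeft_apply, sub_sub_cancel, sub_sub_cancel]
  have e : (1 : K) - x - (1 - y) = -(x - y) := by ring
  rw [e, map_neg_arg nE]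
  ring

/-- the substitution `(1 / x, 1 / y)` -/
theorem quad_inv {A B C D E : MulChar K κ} (nB : B (-1) = 1) (nD : D (-1) = 1)
    (nE : E (-1) = 1) : quad A B C D E = quad (A * B * E)⁻¹ B (C * D * E)⁻¹ D E := by
  rw [quad, quad, ← Equiv.sum_comp (Equiv.inv K)]
  refine sum_congr rfl fun x _ => ?_
  rw [← Equiv.sum_comp (Equiv.inv K)]
  refine sum_congr rfl fun y _ => ?_
  rw [Equiv.inv_apply]
  by_cases hx : x = 0
  · subst hx
    rw [inv_zero, map_zero'', map_zero'']
    ring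
  by_cases hy : y = 0
  · subst hy
    rw [inv_zero, map_zero'', map_zero'']
    ring
  have e1 : (1 : K) - x⁻¹ = -(1 - x) * x⁻¹ := by
    field_simp
    ring
  have e2 : (1 : K) - y⁻¹ = -(1 - y) * y⁻¹ := by
    field_simp
    ring
  have e3 : x⁻¹ - y⁻¹ = -(x - y) * (x⁻¹ * y⁻¹) := by
    field_simp
    ring
  rw [e1, e2, e3, map_mul, map_mul, map_mul, map_mul, map_neg_arg nB, map_neg_arg nD,
    map_neg_arg nE, mul_inv, mul_inv, mul_inv, mul_inv, MulChar.mul_apply, MulChar.mul_apply,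
    MulChar.mul_apply, MulChar.mul_apply, MulChar.inv_apply', MulChar.inv_apply',
    MulChar.inv_apply', MulChar.inv_apply', MulChar.inv_apply', MulChar.inv_apply']
  ring

/-- the substitution `(1 / x, y / x)` -/
theorem quad_div {A B C D E : MulChar K κ} (nB : B (-1) = 1) :
    quad A B C D E = quad (A * B * C * D * E)⁻¹ B C E D := by
  rw [quad, quad, ← Equiv.sum_comp (Equiv.inv K)]
  refine sum_congr rfl fun x _ => ?_
  rw [Equiv.inv_apply]
  by_cases hx : x = 0
  · subst hx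
    rw [inv_zero, map_zero'', map_zero'']
    simp
  rw [← Equiv.sum_comp (Equiv.mulRight₀ (x⁻¹ : K) (inv_ne_zero hx))]
  refine sum_congr rfl fun y _ => ?_
  rw [Equiv.mulRight₀_apply]
  have e1 : (1 : K) - x⁻¹ = -(1 - x) * x⁻¹ := by
    field_simp
    ring
  have e2 : (1 : K) - y * x⁻¹ = (x - y) * x⁻¹ := by
    field_simp
  have e3 : x⁻¹ - y * x⁻¹ = (1 - y) * x⁻¹ := by ring
  rw [e1, e2, e3, map_mul, map_mul, map_mul, map_mul, map_neg_arg nB, mul_inv, mul_inv, mul_inv,
    mul_inv, MulChar.mul_apply, MulChar.mul_apply, MulChar.mul_apply, MulChar.mul_apply,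
    MulChar.inv_apply', MulChar.inv_apply', MulChar.inv_apply', MulChar.inv_apply',
    MulChar.inv_apply']
  ring

variable {p f : ℕ} [Fact p.Prime] [CharP K p]

/-- the first character is trivial -/
theorem quad_first_one (hK : Fintype.card K = p ^ (2 * f)) (hN : (p : κ) ^ f = -1)
    (h2 : (2 : κ) ≠ 0) {B C D E : MulChar K κ} (hB : B ^ (p ^ f + 1) = 1)
    (hC : C ^ (p ^ f + 1) = 1) (hD : D ^ (p ^ f + 1) = 1) (hE : E ^ (p ^ f + 1) = 1)
    (nE : E (-1) = 1) : quad 1 B C D E = 2 := by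
  classical
  have hin : ∀ y : K, y ≠ 0 → y ≠ 1 → fib 1 B E y = - (B * E) (1 - y) - E y := by
    intro y _ hy
    have e : ∀ x : K, (1 : MulChar K κ) x * B (1 - x) * E (x - y) =
        B (1 - x) * E (x - y) - (if x = 0 then B (1 - x) * E (x - y) else 0) := by
      intro x
      rw [one_val]
      split_ifs with h
      · ring
      · ring
    have h3 : ∑ x, B (1 - x) * E (x - y) = - (B * E) (1 - y) := by
      have hy1 : (1 : K) - y ≠ 0 := sub_ne_zero.2 (Ne.symm hy)
      have h4 : ∑ x, B (1 - x) * E (x - y) =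
          ∑ s, B (1 - ((1 - y) * s + y)) * E (((1 - y) * s + y) - y) := by
        rw [← Equiv.sum_comp ((Equiv.mulLeft₀ (1 - y) hy1).trans (Equiv.addRight y))]
        rfl
      rw [h4]
      have h5 : ∀ s : K, B (1 - ((1 - y) * s + y)) * E (((1 - y) * s + y) - y) =
          (B * E) (1 - y) * (E s * B (1 - s)) := by
        intro s
        have e1 : 1 - ((1 - y) * s + y) = (1 - y) * (1 - s) := by ring
        have e2 : ((1 - y) * s + y) - y = (1 - y) * s := by ring
        rw [e1, e2, map_mul, map_mul, MulChar.mul_apply]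
        ring
      rw [sum_congr rfl fun s _ => h5 s, ← mul_sum, jac hK hN h2 hE hB]
      ring
    rw [fib, sum_congr rfl fun x _ => e x, sum_sub_distrib, h3, sum_ite_eq',
      if_pos (mem_univ _), sub_zero, map_one, one_mul, zero_sub, map_neg_arg nE]
  rw [quad_eq, sum_weight C D _ _ hin]
  have e : ∀ y : K, C y * D (1 - y) * (- (B * E) (1 - y) - E y) =
      - (C y * (B * D * E) (1 - y)) - (C * E) y * D (1 - y) := by
    intro y
    rw [MulChar.mul_apply, MulChar.mul_apply, MulChar.mul_apply, MulChar.mul_apply]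
    ring
  rw [sum_congr rfl fun y _ => e y, sum_sub_distrib, sum_neg_distrib,
    jac hK hN h2 hC (by rw [mul_pow, mul_pow, hB, hD, hE, one_mul, one_mul]),
    jac hK hN h2 (by rw [mul_pow, hC, hE, one_mul]) hD]
  norm_num

/-- One of the ten characters is trivial. -/
theorem quad_degenerate (hK : Fintype.card K = p ^ (2 * f)) (hN : (p : κ) ^ f = -1)
    (h2 : (2 : κ) ≠ 0) {A B C D E : MulChar K κ} (hA : A ^ (p ^ f + 1) = 1)
    (hB : B ^ (p ^ f + 1) = 1) (hC : C ^ (p ^ f + 1) = 1) (hD : D ^ (p ^ f + 1) = 1)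
    (hE : E ^ (p ^ f + 1) = 1)
    (h : A = 1 ∨ B = 1 ∨ C = 1 ∨ D = 1 ∨ E = 1 ∨ A * B * E = 1 ∨ C * D * E = 1 ∨
      A * C * E = 1 ∨ B * D * E = 1 ∨ A * B * C * D * E = 1) : quad A B C D E = 2 := by
  have hneg : ∀ {χ : MulChar K κ}, χ ^ (p ^ f + 1) = 1 → χ (-1) = 1 := by
    intro χ hχ
    refine apply_fixed hK hχ (neg_ne_zero.2 one_ne_zero) ?_
    have h3 := map_neg (iterateFrobenius K p f) 1
    rw [map_one, iterateFrobenius_def] at h3
    exact h3
  have hm : ∀ {χ χ' : MulChar K κ}, χ ^ (p ^ f + 1) = 1 → χ' ^ (p ^ f + 1) = 1 →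
      (χ * χ') ^ (p ^ f + 1) = 1 := fun h h' => by rw [mul_pow, h, h', one_mul]
  have hi : ∀ {χ : MulChar K κ}, χ ^ (p ^ f + 1) = 1 → χ⁻¹ ^ (p ^ f + 1) = 1 :=
    fun h => by rw [inv_pow, h, inv_one]
  -- the ten cases
  have h0 : ∀ {A B C D E : MulChar K κ}, B ^ (p ^ f + 1) = 1 → C ^ (p ^ f + 1) = 1 →
      D ^ (p ^ f + 1) = 1 → E ^ (p ^ f + 1) = 1 → A = 1 → quad A B C D E = 2 := by
    intro A B C D E hB hC hD hE h
    rw [h]
    exact quad_first_one hK hN h2 hB hC hD hE (hneg hE)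
  have h1 : ∀ {A B C D E : MulChar K κ}, A ^ (p ^ f + 1) = 1 → C ^ (p ^ f + 1) = 1 →
      D ^ (p ^ f + 1) = 1 → E ^ (p ^ f + 1) = 1 → B = 1 → quad A B C D E = 2 := by
    intro A B C D E hA hC hD hE h
    rw [quad_one_sub (hneg hE)]
    exact h0 hA hD hC hE h
  have h3 : ∀ {A B C D E : MulChar K κ}, A ^ (p ^ f + 1) = 1 → B ^ (p ^ f + 1) = 1 →
      C ^ (p ^ f + 1) = 1 → E ^ (p ^ f + 1) = 1 → D = 1 → quad A B C D E = 2 := by
    intro A B C D E hA hB hC hE h
    rw [quad_symm (hneg hE)]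
    exact h1 hC hA hB hE h
  have h5 : ∀ {A B C D E : MulChar K κ}, A ^ (p ^ f + 1) = 1 → B ^ (p ^ f + 1) = 1 →
      C ^ (p ^ f + 1) = 1 → D ^ (p ^ f + 1) = 1 → E ^ (p ^ f + 1) = 1 → A * B * E = 1 →
        quad A B C D E = 2 := by
    intro A B C D E hA hB hC hD hE h
    rw [quad_inv (hneg hB) (hneg hD) (hneg hE)]
    exact h0 hB (hi (hm (hm hC hD) hE)) hD hE (by rw [h, inv_one])
  have h7 : ∀ {A B C D E : MulChar K κ}, A ^ (p ^ f + 1) = 1 → B ^ (p ^ f + 1) = 1 →
      C ^ (p ^ f + 1) = 1 → D ^ (p ^ f + 1) = 1 → E ^ (p ^ f + 1) = 1 → A * C * E = 1 →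
        quad A B C D E = 2 := by
    intro A B C D E hA hB hC hD hE h
    rw [quad_div (hneg hB)]
    refine h5 (hi (hm (hm (hm (hm hA hB) hC) hD) hE)) hB hC hE hD ?_
    have e : (A * B * C * D * E)⁻¹ * B * D = (A * C * E)⁻¹ := by
      have e2 : A * B * C * D * E = A * C * E * (B * D) := by
        simp only [mul_comm, mul_left_comm]
      rw [mul_assoc, inv_mul_eq_iff_eq_mul, eq_mul_inv_iff_mul_eq, e2, mul_comm]
    rw [e, h, inv_one]
  rcases h with h | h | h | h | h | h | h | h | h | h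
  · exact h0 hB hC hD hE h
  · exact h1 hA hC hD hE h
  · rw [quad_symm (hneg hE)]
    exact h0 hD hA hB hE h
  · exact h3 hA hB hC hE h
  · rw [quad_div (hneg hB)]
    exact h3 (hi (hm (hm (hm (hm hA hB) hC) hD) hE)) hB hC hD h
  · exact h5 hA hB hC hD hE h
  · rw [quad_symm (hneg hE)]
    exact h5 hC hD hA hB hE h
  · exact h7 hA hB hC hD hE h
  · rw [quad_one_sub (hneg hE)]
    exact h7 hB hA hD hC hE h
  · rw [quad_div (hneg hB)]
    exact h0 hB hC hE hD (by rw [h, inv_one])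

end

end Pool.Agent.Helper44.QC
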