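import Pool.Agent.Helper17.QC.ResTwo

/-!
# Jacobi sums of characters which are trivial on the subfield of index two

`K` has `N ^ 2` elements, `N = p ^ f`, and `N = -1` in the field `κ`.  All the Jacobi sums of
characters of `K` with values in `κ` killed by `N + 1` are `-1`.
-/

open Finset

namespace Pool.Agent.Helper44.QC

open Pool.Agent.Helper73.QC

section

variable {K κ : Type*} [Field K] [Fintype K] [Field κ] {p f : ℕ} [Fact p.Prime] [CharP K p]

omit [CharP K p] in
/-- characters killed by `N + 1` are trivial on the subfield with `N` elements -/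
theorem apply_fixed (hK : Fintype.card K = p ^ (2 * f)) {A : MulChar K κ}
    (hA : A ^ (p ^ f + 1) = 1) {t : K} (h0 : t ≠ 0) (ht : t ^ p ^ f = t) : A t = 1 := by
  classical
  have hN : 1 ≤ p ^ f := Nat.one_le_pow _ _ (Fact.out : p.Prime).pos
  obtain ⟨g, hg⟩ := IsCyclic.exists_generator (α := Kˣ)
  obtain ⟨u, rfl⟩ : IsUnit t := isUnit_iff_ne_zero.2 h0
  obtain ⟨k, hk⟩ := (mem_powers_iff_mem_zpowers (x := g) (y := u)).2 (hg u)
  have hk : g ^ k = u := hk
  have h1 : u ^ (p ^ f - 1) = 1 := by
    have h2 : (u : K) * (u : K) ^ (p ^ f - 1) = (u : K) * 1 := by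
      rw [← pow_succ', Nat.sub_add_cancel hN, ht, mul_one]
    have h3 := mul_left_cancel₀ h0 h2
    apply Units.ext
    rw [Units.val_pow_eq_pow_val, h3, Units.val_one]
  have hord : orderOf g = (p ^ f + 1) * (p ^ f - 1) := by
    rw [orderOf_eq_card_of_forall_mem_zpowers hg, Nat.card_eq_fintype_card, Fintype.card_units, hK,
      mul_comm 2 f, pow_mul]
    obtain ⟨m, hm⟩ : ∃ m, p ^ f = m + 1 := ⟨p ^ f - 1, by omega⟩
    rw [hm]
    have e : (m + 1) ^ 2 = (m + 1 + 1) * m + 1 := by ring
    rw [e]
    simp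
  rw [← hk, ← pow_mul] at h1
  have h2 := orderOf_dvd_of_pow_eq_one h1
  rw [hord] at h2
  rcases Nat.eq_zero_or_pos (p ^ f - 1) with h3 | h3
  · -- `K` has one element: impossible
    have h4 : Fintype.card K = 1 := by
      rw [hK, mul_comm 2 f, pow_mul]
      have : p ^ f = 1 := by omega
      rw [this, one_pow]
    have := Fintype.one_lt_card (α := K)
    omega
  obtain ⟨c, hc⟩ := Nat.dvd_of_mul_dvd_mul_right h3 h2
  have h5 : A g ^ (p ^ f + 1) = 1 := by
    rw [← MulChar.pow_apply_coe, hA, MulChar.one_apply_coe]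
  rw [← hk, Units.val_pow_eq_pow_val, map_pow, hc, pow_mul, h5, one_pow]

omit [CharP K p] in
/-- the number of elements of the subfield -/
theorem card_fixed (hK : Fintype.card K = p ^ (2 * f)) [DecidableEq K] :
    (univ.filter fun t : K => t ^ p ^ f = t).card = p ^ f := by
  classical
  have hN : 1 ≤ p ^ f := Nat.one_le_pow _ _ (Fact.out : p.Prime).pos
  have h1 : (univ.filter fun t : K => t ^ p ^ f = t) =
      insert 0 ((univ.filter fun u : Kˣ => u ^ (p ^ f - 1) = 1).map
        ⟨Units.val, Units.val_injective⟩) := by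
    ext t
    simp only [mem_filter, mem_univ, true_and, mem_insert, mem_map, Function.Embedding.coeFn_mk]
    constructor
    · intro h
      by_cases h0 : t = 0
      · exact Or.inl h0
      refine Or.inr ⟨Units.mk0 t h0, ?_, rfl⟩
      apply Units.ext
      rw [Units.val_pow_eq_pow_val, Units.val_mk0, Units.val_one]
      apply mul_left_cancel₀ h0
      rw [← pow_succ', Nat.sub_add_cancel hN, h, mul_one]
    · rintro (h | ⟨u, hu, rfl⟩)
      · rw [h, zero_pow (by omega)]
      · have h2 : (u : K) ^ (p ^ f - 1) = 1 := by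
          rw [← Units.val_pow_eq_pow_val, hu, Units.val_one]
        calc (u : K) ^ p ^ f = (u : K) * (u : K) ^ (p ^ f - 1) := by
              rw [← pow_succ', Nat.sub_add_cancel hN]
          _ = u := by rw [h2, mul_one]
  have h2 : (univ.filter fun u : Kˣ => u ^ (p ^ f - 1) = 1).card = p ^ f - 1 := by
    have h3 := IsCyclic.card_powMonoidHom_ker (G := Kˣ) (p ^ f - 1)
    have h4 : Nat.card (powMonoidHom (p ^ f - 1) : Kˣ →* Kˣ).ker =
        (univ.filter fun u : Kˣ => u ^ (p ^ f - 1) = 1).card := by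
      rw [Nat.card_eq_fintype_card]
      refine Fintype.card_of_subtype _ fun u => ?_
      rw [mem_filter]
      simp [MonoidHom.mem_ker]
    rw [← h4, h3, Nat.card_eq_fintype_card, Fintype.card_units, hK, mul_comm 2 f, pow_mul]
    obtain ⟨m, hm⟩ : ∃ m, p ^ f = m + 1 := ⟨p ^ f - 1, by omega⟩
    rw [hm]
    have e : (m + 1) ^ 2 = m * (m + 1 + 1) + 1 := by ring
    rw [e]
    simp
  rw [h1, card_insert_of_notMem, card_map, h2, Nat.sub_add_cancel hN]
  simp only [mem_map, Function.Embedding.coeFn_mk, not_exists, not_and]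
  intro u _
  exact u.ne_zero

omit [CharP K p] [Fact p.Prime] in
/-- the sum of all values of a character killed by `N + 1` -/
theorem sum_zero (hK : Fintype.card K = p ^ (2 * f)) (hN : (p : κ) ^ f = -1) (A : MulChar K κ) :
    ∑ x, A x = 0 := by
  classical
  by_cases hA : A = 1
  · have h := MulChar.sum_one_eq_card_units (R := K) (R' := κ)
    rw [hA, h, Fintype.card_units, hK, Nat.cast_sub (hK ▸ Fintype.card_pos), mul_comm 2 f, pow_mul]
    push_cast
    rw [hN]
    ring
  · exact MulChar.sum_eq_zero_of_ne_one hA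

/-- All the Jacobi sums are `-1`. -/
theorem jac (hK : Fintype.card K = p ^ (2 * f)) (hN : (p : κ) ^ f = -1) (h2 : (2 : κ) ≠ 0)
    {A B : MulChar K κ} (hA : A ^ (p ^ f + 1) = 1) (hB : B ^ (p ^ f + 1) = 1) :
    ∑ x, A x * B (1 - x) = -1 := by
  classical
  have hp : p.Prime := Fact.out
  set φ : K →+* K := iterateFrobenius K p f with hφ
  have hφx : ∀ x, φ x = x ^ p ^ f := fun x => iterateFrobenius_def p f x
  have hφφ : ∀ x, φ (φ x) = x := by
    intro x
    rw [hφx, hφx, ← pow_mul, ← pow_add, ← two_mul, ← hK, FiniteField.pow_card]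
  set S := univ.filter fun t : K => t ^ p ^ f = t with hS
  have hmem : ∀ t, t ∈ S ↔ φ t = t := by
    intro t
    rw [hS, mem_filter, hφx]
    simp
  have h0S : (0 : K) ∈ S := by rw [hmem, map_zero]
  have hcS : (S.card : κ) = -1 := by
    rw [hS, card_fixed hK]
    push_cast
    exact hN
  have hval : ∀ {χ : MulChar K κ}, χ ^ (p ^ f + 1) = 1 → ∀ t ∈ S, t ≠ 0 → χ t = 1 := by
    intro χ hχ t ht h0
    exact apply_fixed hK hχ h0 (mem_filter.1 ht).2
  -- sums over the subfield
  have hsumS : ∀ {χ : MulChar K κ}, χ ^ (p ^ f + 1) = 1 → ∑ t ∈ S, χ t = -2 := by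
    intro χ hχ
    rw [← add_sum_erase S _ h0S, map_zero'', zero_add]
    rw [sum_congr rfl fun t ht => hval hχ t (mem_of_mem_erase ht) (ne_of_mem_erase ht)]
    rw [sum_const, nsmul_eq_mul, mul_one, card_erase_of_mem h0S,
      Nat.cast_sub (card_pos.2 ⟨0, h0S⟩), hcS]
    norm_num
  set J := ∑ x, A x * B (1 - x) with hJ
  -- the sums for the other elements of the subfield
  have hJt : ∀ t ∈ S, t ≠ 0 → ∑ x, A x * B (t - x) = J := by
    intro t ht h0
    rw [hJ, ← Equiv.sum_comp (Equiv.mulLeft₀ t h0)]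
    refine sum_congr rfl fun x _ => ?_
    rw [Equiv.mulLeft₀_apply]
    have e : t - t * x = t * (1 - x) := by ring
    rw [e, map_mul, map_mul, hval hA t ht h0, hval hB t ht h0, one_mul, one_mul]
  have hJ0 : ∑ x, A x * B (0 - x) = 0 := by
    have h := sum_zero hK hN (A * B)
    have e : ∀ x, A x * B (0 - x) = B (-1) * (A * B) x := by
      intro x
      have : (0 : K) - x = -1 * x := by ring
      rw [this, map_mul, MulChar.mul_apply]
      ring
    rw [sum_congr rfl fun x _ => e x, ← mul_sum, h, mul_zero]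
  have hleft : ∑ t ∈ S, ∑ x, A x * B (t - x) = -2 * J := by
    rw [← add_sum_erase S _ h0S, hJ0, zero_add,
      sum_congr rfl fun t ht => hJt t (mem_of_mem_erase ht) (ne_of_mem_erase ht),
      sum_const, nsmul_eq_mul, card_erase_of_mem h0S,
      Nat.cast_sub (card_pos.2 ⟨0, h0S⟩), hcS]
    push_cast
    ring
  set h : K → κ := fun x => ∑ t ∈ S, B (t - x) with hh
  have hright : ∑ t ∈ S, ∑ x, A x * B (t - x) = ∑ x, A x * h x := by
    rw [sum_comm]
    refine sum_congr rfl fun x _ => ?_
    rw [hh, mul_sum]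
  -- the inner sum on the subfield
  have hin : ∀ x ∈ S, h x = -2 := by
    intro x hx
    rw [hh, ← hsumS hB]
    refine sum_bij' (fun t _ => t - x) (fun t _ => t + x) ?_ ?_ ?_ ?_ ?_
    · intro t ht
      rw [hmem] at ht hx ⊢
      rw [map_sub, ht, hx]
    · intro t ht
      rw [hmem] at ht hx ⊢
      rw [map_add, ht, hx]
    · intro t _
      ring
    · intro t _
      ring
    · intro t _
      rfl
  -- the inner sum outside the subfield
  have hout : ∀ x, x ∉ S → ∀ y, y ∉ S → h x = h y := by
    intro x hx y hy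
    rw [hmem] at hx hy
    have hx0 : x - φ x ≠ 0 := sub_ne_zero.2 (Ne.symm hx)
    have hy0 : y - φ y ≠ 0 := sub_ne_zero.2 (Ne.symm hy)
    set c := (y - φ y) / (x - φ x) with hc
    have hc0 : c ≠ 0 := div_ne_zero hy0 hx0
    have hcφ : φ c = c := by
      rw [hc, map_div₀, map_sub, map_sub, hφφ, hφφ, ← neg_sub y, ← neg_sub x, neg_div_neg_eq]
    set s := y - c * x with hs
    have hsφ : φ s = s := by
      have e : c * (x - φ x) = y - φ y := div_mul_cancel₀ _ hx0
      rw [hs, map_sub, map_mul, hcφ]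
      linear_combination e
    have hys : y = c * x + s := by rw [hs]; ring
    rw [hh]
    refine sum_bij' (fun t _ => c * t + s) (fun t _ => (t - s) / c) ?_ ?_ ?_ ?_ ?_
    · intro t ht
      rw [hmem] at ht ⊢
      rw [map_add, map_mul, hcφ, ht, hsφ]
    · intro t ht
      rw [hmem] at ht ⊢
      rw [map_div₀, map_sub, hcφ, ht, hsφ]
    · intro t _
      field_simp
      ring
    · intro t _
      field_simp
      ring
    · intro t _
      have e : c * t + s - y = c * (t - x) := by rw [hys]; ring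
      rw [e, map_mul, hval hB c ((hmem c).2 hcφ) hc0, one_mul]
  -- an element outside the subfield
  obtain ⟨x₀, hx₀⟩ : ∃ x₀, x₀ ∉ S := by
    by_contra hcon
    push Not at hcon
    have h3 : S = univ := eq_univ_iff_forall.2 hcon
    have h4 := card_fixed (K := K) hK
    rw [← hS, h3, card_univ, hK] at h4
    have h5 : 1 < Fintype.card K := Fintype.one_lt_card
    rw [hK] at h5
    have h6 : 2 * f = f := Nat.pow_right_injective hp.two_le h4
    have h7 : f = 0 := by omega
    rw [h7] at h5
    simp at h5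
  have hsum : ∑ x, h x = 0 := by
    rw [hh, sum_comm]
    refine sum_eq_zero fun t _ => ?_
    rw [← sum_zero hK hN B]
    exact Fintype.sum_equiv (Equiv.subLeft t) _ _ fun x => rfl
  have hsplit : ∀ G : K → κ, ∑ x, G x = ∑ x ∈ S, G x + ∑ x ∈ Sᶜ, G x := fun G =>
    (sum_add_sum_compl S G).symm
  have hcc : ((Sᶜ).card : κ) = 2 := by
    have h3 := card_compl_add_card S
    have h4 := congrArg (Nat.cast : ℕ → κ) h3
    rw [Nat.cast_add, hcS, hK, mul_comm 2 f, pow_mul, Nat.cast_pow, Nat.cast_pow, hN] at h4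
    linear_combination h4
  have hH : h x₀ = -1 := by
    rw [hsplit, sum_congr rfl hin, sum_congr rfl fun x hx => hout x (mem_compl.1 hx) x₀ hx₀,
      sum_const, sum_const, nsmul_eq_mul, nsmul_eq_mul, hcS, hcc] at hsum
    apply mul_left_cancel₀ h2
    linear_combination hsum
  have hfin : ∑ x, A x * h x = 2 := by
    have h3 := hsplit fun x => A x
    rw [sum_zero hK hN A, hsumS hA] at h3
    rw [hsplit, sum_congr rfl fun x hx => by rw [hin x hx],
      sum_congr (s₁ := Sᶜ) rfl fun x hx => by rw [hout x (mem_compl.1 hx) x₀ hx₀, hH],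
      ← sum_mul, ← sum_mul, hsumS hA]
    linear_combination h3
  rw [hleft] at hright
  rw [hfin] at hright
  apply mul_left_cancel₀ h2
  linear_combination - hright

end

end Pool.Agent.Helper44.QC
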