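import Mathlib

/-!
# A valuation attached to a place of the ring of algebraic integers
-/

set_option autoImplicit false

namespace Pool.Agent.Helper44.QC

/-- Every homomorphism from the ring of integers of `L` to a field is the residue map of a
valuation of `L`, in the sense that the units of the valuation are the elements outside the
kernel. -/
theorem exists_valuation {L κ : Type} [Field L] [Field κ] (φ : integralClosure ℤ L →+* κ) :
    ∃ (Γ : Type) (_ : LinearOrderedCommGroupWithZero Γ) (v : Valuation L Γ),
      (∀ x : integralClosure ℤ L, v (x : L) ≤ 1) ∧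
        ∀ x : integralClosure ℤ L, v (x : L) = 1 ↔ φ x ≠ 0 := by
  let A : Subring L := (integralClosure ℤ L).toSubring
  let φ' : A →+* κ := φ
  let P : Ideal A := RingHom.ker φ'
  have hP : P.IsPrime := RingHom.ker_isPrime φ'
  obtain ⟨V, hV⟩ := (LocalSubring.ofPrime A P).exists_le_valuationSubring
  obtain ⟨h1, h2⟩ := hV
  have h3 : ∀ x : A, (x : L) ∈ V := fun x => h1 (LocalSubring.le_ofPrime A P x.2)
  have h4 : ∀ x : A, IsUnit (⟨(x : L), h3 x⟩ : V) ↔ φ' x ≠ 0 := by
    intro x
    have h5 := IsLocalization.AtPrime.isUnit_to_map_iff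
      (LocalSubring.ofPrime A P).toSubring P x
    have h6 : x ∈ P.primeCompl ↔ φ' x ≠ 0 := by
      rw [Ideal.mem_primeCompl_iff, RingHom.mem_ker]
    rw [← h6, ← h5]
    constructor
    · intro h7
      apply h2.map_nonunit
      exact h7
    · intro h7
      exact h7.map (Subring.inclusion h1)
  refine ⟨V.ValueGroup, inferInstance, V.valuation, ?_, ?_⟩
  · intro x
    exact (V.valuation_le_one_iff (x : L)).mpr (h3 x)
  · intro x
    rw [← V.valuation_eq_one_iff ⟨(x : L), h3 x⟩]
    exact h4 x

end Pool.Agent.Helper44.QC
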