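import Pool.Agent.Helper44.QC.Unram
import Pool.Agent.Helper44.QC.Val
import Pool.Agent.Helper73.QC.Fun
import Pool.Agent.Helper73.HD.Place
import Pool.Agent.Helper73.LF.Chars
import Pool.Agent.Helper79.QC.Digit
import Pool.Agent.Helper40.QC.Stick

/-!
# The product of the ten Gauss sums is not the required square
-/

set_option autoImplicit false

open Finset

namespace Pool.Agent.Helper44.QC

open Pool.Agent.Helper73.LF Pool.Agent.Helper73.QC Pool.Agent.Helper79.QC Pool.Agent.Helper73.KT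

/-! ### The ten residues -/

/-- minus the product of the ten residues -/
def delta (u : Fin 5 → ℤ) : ℤ :=
  u 0 * u 1 * u 2 * u 3 * u 4 * (u 0 + u 1 + u 4) * (u 2 + u 3 + u 4) * (u 0 + u 2 + u 4) *
    (u 1 + u 3 + u 4) * (u 0 + u 1 + u 2 + u 3 + u 4)

/-- the ten residues -/
def resid (u : Fin 5 → ℤ) : Fin 10 → ℤ :=
  ![u 0, u 1, u 2, u 3, u 4, -(u 0 + u 1 + u 4), -(u 2 + u 3 + u 4), u 0 + u 2 + u 4,
    u 1 + u 3 + u 4, -(u 0 + u 1 + u 2 + u 3 + u 4)]

theorem sum_resid (u : Fin 5 → ℤ) : ∑ D, resid u D = 0 := by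
  simp only [resid, Fin.sum_univ_succ]
  simp
  ring

theorem prod_resid (u : Fin 5 → ℤ) : -∏ D, resid u D = delta u := by
  simp only [resid, Fin.prod_univ_succ, delta]
  simp
  ring

theorem resid_not_dvd {r : ℕ} {u : Fin 5 → ℤ} (hu : ¬ IsSquare ((delta u : ℤ) : ZMod r))
    (D : Fin 10) : ¬ (r : ℤ) ∣ resid u D := by
  intro h
  apply hu
  have h1 : (r : ℤ) ∣ delta u := by
    rw [← prod_resid, dvd_neg]
    exact h.trans (Finset.dvd_prod_of_mem _ (mem_univ D))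
  rw [(ZMod.intCast_zmod_eq_zero_iff_dvd (delta u) r).mpr h1]
  exact IsSquare.zero

theorem prod_ten {M : Type*} [CommMonoid M] (f : Fin 10 → M) :
    ∏ D, f D = f 0 * f 1 * f 2 * f 3 * f 4 * f 5 * f 6 * f 7 * f 8 * f 9 := by
  simp only [Fin.prod_univ_castSucc, Finset.univ_eq_empty, prod_empty, one_mul]
  rfl

/-! ### Characters -/

section chars

variable {K L : Type*} [Field K] [Fintype K] [Field L] {n : ℕ} [NeZero n] {τ : MulChar K L}

omit [NeZero n] in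
theorem pow_congr (hτ : orderOf τ = Fintype.card K - 1) (hn : n ∣ Fintype.card K - 1) {s t : ℕ}
    (hst : s ≡ t [MOD n]) :
    τ ^ ((Fintype.card K - 1) / n * s) = τ ^ ((Fintype.card K - 1) / n * t) := by
  rw [pow_eq_pow_iff_modEq, hτ]
  have h := Nat.ModEq.mul_left' ((Fintype.card K - 1) / n) hst
  rwa [Nat.div_mul_cancel hn] at h

omit [Field L] [Field K] in
theorem ch_exp (hn : n ∣ Fintype.card K - 1) (t : ℕ) :
    (Fintype.card K - 1) * t / n = (Fintype.card K - 1) / n * t := by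
  obtain ⟨c, hc⟩ := hn
  rw [hc, Nat.mul_div_cancel_left _ (NeZero.pos n), mul_assoc,
    Nat.mul_div_cancel_left _ (NeZero.pos n)]

theorem ch_eq_pow (hτ : orderOf τ = Fintype.card K - 1) (hn : n ∣ Fintype.card K - 1)
    {a : ZMod n} {t : ℕ} (ht : (t : ZMod n) = a) :
    ch τ a = τ ^ ((Fintype.card K - 1) / n * t) := by
  rw [ch, ch_exp hn]
  apply pow_congr hτ hn
  rw [← ZMod.natCast_eq_natCast_iff, ZMod.natCast_zmod_val, ht]

theorem ch_add (hτ : orderOf τ = Fintype.card K - 1) (hn : n ∣ Fintype.card K - 1)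
    (a b : ZMod n) : ch τ (a + b) = ch τ a * ch τ b := by
  rw [ch_eq_pow hτ hn (ZMod.natCast_zmod_val a), ch_eq_pow hτ hn (ZMod.natCast_zmod_val b),
    ← pow_add, ← mul_add]
  apply ch_eq_pow hτ hn
  rw [Nat.cast_add, ZMod.natCast_zmod_val, ZMod.natCast_zmod_val]

theorem ch_neg' (hτ : orderOf τ = Fintype.card K - 1) (hn : n ∣ Fintype.card K - 1)
    (a : ZMod n) : ch τ (-a) = (ch τ a)⁻¹ := by
  rw [eq_inv_iff_mul_eq_one, ← ch_add hτ hn, neg_add_cancel]
  rw [ch_eq_pow hτ hn (t := 0) (by simp), mul_zero, pow_zero]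

theorem ch_twist {τ' : MulChar K L} (hτ' : orderOf τ' = Fintype.card K - 1)
    (hτ : orderOf τ = Fintype.card K - 1)
    (hn : n ∣ Fintype.card K - 1) {j : ℕ} (hj : τ' ^ j = τ) {h : ZMod n}
    (hjh : (j : ZMod n) = h) (a : ZMod n) :
    (ch τ a)⁻¹ = τ'⁻¹ ^ ((Fintype.card K - 1) / n * (h * a).val) := by
  rw [inv_pow]
  congr 1
  rw [ch_eq_pow hτ hn (ZMod.natCast_zmod_val a), ← hj, ← pow_mul, mul_left_comm]
  apply pow_congr hτ' hn
  rw [← ZMod.natCast_eq_natCast_iff]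
  push_cast
  rw [ZMod.natCast_zmod_val, ZMod.natCast_zmod_val, hjh]

theorem ch_root (hτ : orderOf τ = Fintype.card K - 1) (hn : n ∣ Fintype.card K - 1) (a : ZMod n)
    {x : K} (hx : x ≠ 0) : (ch τ a x) ^ n = 1 := by
  rw [← MulChar.pow_apply' _ (NeZero.ne n), ch_eq_pow hτ hn (ZMod.natCast_zmod_val a), ← pow_mul]
  have h1 : (Fintype.card K - 1) / n * a.val * n = (Fintype.card K - 1) * a.val := by
    rw [mul_right_comm, Nat.div_mul_cancel hn]
  rw [h1, ← hτ, pow_mul, pow_orderOf_eq_one, one_pow, MulChar.one_apply (isUnit_iff_ne_zero.2 hx)]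

theorem ch_mem_adjoin (hτ : orderOf τ = Fintype.card K - 1) (hn : n ∣ Fintype.card K - 1)
    (a : ZMod n) {z : L} (hz : IsPrimitiveRoot z n) (x : K) :
    ch τ a x ∈ Algebra.adjoin ℤ {z} := by
  by_cases hx : x = 0
  · rw [hx, map_zero'']
    exact zero_mem _
  · obtain ⟨i, -, hi⟩ := hz.eq_pow_of_pow_eq_one (ch_root hτ hn a hx)
    rw [← hi]
    exact pow_mem (Algebra.self_mem_adjoin_singleton ℤ z) i

theorem quad_mem_adjoin (hτ : orderOf τ = Fintype.card K - 1) (hn : n ∣ Fintype.card K - 1)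
    (a b c d e : ZMod n) {z : L} (hz : IsPrimitiveRoot z n) :
    quad (ch τ a) (ch τ b) (ch τ c) (ch τ d) (ch τ e) ∈ Algebra.adjoin ℤ {z} := by
  rw [quad]
  refine sum_mem fun x _ => sum_mem fun y _ => ?_
  exact mul_mem (mul_mem (mul_mem (mul_mem (ch_mem_adjoin hτ hn a hz _)
    (ch_mem_adjoin hτ hn b hz _)) (ch_mem_adjoin hτ hn c hz _)) (ch_mem_adjoin hτ hn d hz _))
    (ch_mem_adjoin hτ hn e hz _)

theorem ten_eq (hτ : orderOf τ = Fintype.card K - 1) (hn : n ∣ Fintype.card K - 1)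
    (u : Fin 5 → ℤ) (ψ : AddChar K L) :
    ten (ch τ (u 0 : ZMod n)) (ch τ (u 1 : ZMod n)) (ch τ (u 2 : ZMod n)) (ch τ (u 3 : ZMod n))
      (ch τ (u 4 : ZMod n)) ψ = ∏ D, gaussSum (ch τ (resid u D : ZMod n))⁻¹ ψ := by
  rw [ten]
  have h0 : ∏ D, gaussSum (ch τ (resid u D : ZMod n))⁻¹ ψ =
      gaussSum (ch τ (resid u 0 : ZMod n))⁻¹ ψ * gaussSum (ch τ (resid u 1 : ZMod n))⁻¹ ψ *
      gaussSum (ch τ (resid u 2 : ZMod n))⁻¹ ψ * gaussSum (ch τ (resid u 3 : ZMod n))⁻¹ ψ *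
      gaussSum (ch τ (resid u 4 : ZMod n))⁻¹ ψ * gaussSum (ch τ (resid u 5 : ZMod n))⁻¹ ψ *
      gaussSum (ch τ (resid u 6 : ZMod n))⁻¹ ψ * gaussSum (ch τ (resid u 7 : ZMod n))⁻¹ ψ *
      gaussSum (ch τ (resid u 8 : ZMod n))⁻¹ ψ * gaussSum (ch τ (resid u 9 : ZMod n))⁻¹ ψ := by
    exact prod_ten _
  have e5 : (resid u 5 : ZMod n) = -((u 0 : ZMod n) + u 1 + u 4) := by
    change ((-(u 0 + u 1 + u 4) : ℤ) : ZMod n) = _
    push_cast
    ring
  have e6 : (resid u 6 : ZMod n) = -((u 2 : ZMod n) + u 3 + u 4) := by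
    change ((-(u 2 + u 3 + u 4) : ℤ) : ZMod n) = _
    push_cast
    ring
  have e7 : (resid u 7 : ZMod n) = (u 0 : ZMod n) + u 2 + u 4 := by
    change ((u 0 + u 2 + u 4 : ℤ) : ZMod n) = _
    push_cast
    ring
  have e8 : (resid u 8 : ZMod n) = (u 1 : ZMod n) + u 3 + u 4 := by
    change ((u 1 + u 3 + u 4 : ℤ) : ZMod n) = _
    push_cast
    ring
  have e9 : (resid u 9 : ZMod n) = -((u 0 : ZMod n) + u 1 + u 2 + u 3 + u 4) := by
    change ((-(u 0 + u 1 + u 2 + u 3 + u 4) : ℤ) : ZMod n) = _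
    push_cast
    ring
  rw [h0, e5, e6, e7, e8, e9, ch_neg' hτ hn, ch_neg' hτ hn, ch_neg' hτ hn, inv_inv, inv_inv,
    inv_inv]
  simp only [ch_add hτ hn]
  rfl

end chars

/-! ### The parity -/

/-- The criterion for one place, for every conductor `n` prime to `p`. -/
theorem sq_ne_place_sign {L K : Type} [Field L] [CharZero L] [IsAlgClosed L] [Field K]
    [Fintype K] {p n : ℕ} [hpf : Fact p.Prime] [NeZero n] (P : (ZMod n)ˣ)
    (hP : (P : ZMod n) = p) (hK : Fintype.card K = p ^ orderOf P)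
    {τ : MulChar K L} (hτ : orderOf τ = Fintype.card K - 1) {ψ : AddChar K L}
    (hψ : ψ.IsPrimitive) (u : Fin 5 → ℤ) (h : (ZMod n)ˣ)
    (hh : Odd (orderOf P + ∑ᶠ g : Subgroup.zpowers P, total n (resid u) (g * h) / n)) {ε : L}
    (hε : ε ^ 2 = 1) :
    ten (ch τ (u 0 : ZMod n)) (ch τ (u 1 : ZMod n)) (ch τ (u 2 : ZMod n)) (ch τ (u 3 : ZMod n))
        (ch τ (u 4 : ZMod n)) ψ *
      quad (ch τ (u 0 : ZMod n)) (ch τ (u 1 : ZMod n)) (ch τ (u 2 : ZMod n))
        (ch τ (u 3 : ZMod n)) (ch τ (u 4 : ZMod n)) ^ 2 ≠ ε * (4 * (Fintype.card K : L) ^ 7) := by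
  classical
  intro heq
  have hp : p.Prime := hpf.out
  have hcop : Nat.Coprime p n := by
    rw [← ZMod.isUnit_iff_coprime, ← hP]
    exact P.isUnit
  have hpn : ¬ p ∣ n := (Nat.Prime.coprime_iff_not_dvd hp).1 hcop
  set m := orderOf P with hm
  have hPm : (p : ZMod n) ^ m = 1 := by
    rw [← hP, ← Units.val_pow_eq_pow_val, hm, pow_orderOf_eq_one, Units.val_one]
  -- the divisibility
  have hq1 : 1 ≤ p ^ m := Nat.one_le_pow _ _ hp.pos
  have hdvd : n ∣ Fintype.card K - 1 := by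
    rw [hK, ← ZMod.natCast_eq_zero_iff, Nat.cast_sub hq1, Nat.cast_pow, hPm,
      Nat.cast_one, sub_self]
  have hcard : 0 < Fintype.card K - 1 := card_pos'
  have : NeZero (Fintype.card K - 1) := ⟨hcard.ne'⟩
  obtain ⟨J, hJ⟩ := ZMod.unitsMap_surjective hdvd h
  set j : ℕ := (J : ZMod (Fintype.card K - 1)).val with hj
  set i : ℕ := ((J⁻¹ : (ZMod (Fintype.card K - 1))ˣ) : ZMod (Fintype.card K - 1)).val with hi
  have hjh : ((j : ℕ) : ZMod n) = h := by
    have h1 : ((j : ℕ) : ZMod (Fintype.card K - 1)) = J := ZMod.natCast_zmod_val _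
    have h2 := congrArg (ZMod.castHom hdvd (ZMod n)) h1
    rw [map_natCast] at h2
    rw [h2, ← hJ]
    rfl
  have hij : i * j ≡ 1 [MOD (Fintype.card K - 1)] := by
    rw [← ZMod.natCast_eq_natCast_iff, Nat.cast_mul, hi, hj, ZMod.natCast_zmod_val,
      ZMod.natCast_zmod_val, ← Units.val_mul, inv_mul_cancel, Units.val_one, Nat.cast_one]
  have hτj : (τ ^ i) ^ j = τ := by
    rw [← pow_mul]
    conv_rhs => rw [← pow_one τ]
    rw [pow_eq_pow_iff_modEq, hτ]
    exact hij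
  have hτi : orderOf (τ ^ i) = Fintype.card K - 1 := by
    rw [Nat.Coprime.orderOf_pow, hτ]
    rw [hτ]
    exact (ZMod.val_coe_unit_coprime J⁻¹).symm
  -- the place
  have hcharK : CharP K p := charP_of_card_eq_prime_pow hK
  have hinj : Function.Injective (MulChar.toUnitHom (τ ^ i)) := by
    rw [injective_iff_map_eq_one]
    intro x hx
    have h1 : (τ ^ i) (x : K) = 1 := by
      rw [← MulChar.coe_toUnitHom, hx, Units.val_one]
    have h2 := faithful hτi x.ne_zero h1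
    exact Units.val_eq_one.1 h2
  obtain ⟨κ, _, _, φ, ι, hφ⟩ := Pool.Agent.Helper73.HD.exists_place (p := p)
    (MulChar.toUnitHom (τ ^ i)) hinj
  obtain ⟨Γ, _, v, hv1, hv2⟩ := exists_valuation φ
  obtain ⟨w, hw, hg⟩ := Pool.Agent.Helper40.QC.stickelberger φ ι (τ ^ i) v hK
    (fun t => by rw [← hφ t, MulChar.coe_toUnitHom]) hv2 ψ hψ
  have hvp : v (p : L) < 1 := by
    apply lt_of_le_of_ne
    · have h1 := hv1 (p : integralClosure ℤ L)
      simpa using h1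
    · intro h1
      have h2 := (hv2 (p : integralClosure ℤ L)).1 (by simpa using h1)
      apply h2
      rw [map_natCast]
      exact CharP.cast_eq_zero κ p
  have hvp0 : v (p : L) ≠ 0 := by
    rw [Ne, map_eq_zero]
    exact_mod_cast hp.ne_zero
  -- the value of the product of the Gauss sums
  set T := ∑ᶠ g : Subgroup.zpowers P, total n (resid u) (g * h) / n with hT
  have hten : v (ten (ch τ (u 0 : ZMod n)) (ch τ (u 1 : ZMod n)) (ch τ (u 2 : ZMod n))
      (ch τ (u 3 : ZMod n)) (ch τ (u 4 : ZMod n)) ψ) = v (p : L) ^ T := by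
    rw [ten_eq hτ hdvd, map_prod]
    have h1 : ∀ D : Fin 10, v (gaussSum (ch τ (resid u D : ZMod n))⁻¹ ψ) =
        w ^ (Nat.digits p ((p ^ m - 1) / n *
          ((h : ZMod n) * (resid u D : ZMod n)).val)).sum := by
      intro D
      rw [ch_twist hτi hτ hdvd hτj hjh, hK, hg]
      rw [hK] at hcard hdvd
      calc (p ^ m - 1) / n * ((h : ZMod n) * (resid u D : ZMod n)).val
          < (p ^ m - 1) / n * n := by
            apply Nat.mul_lt_mul_of_pos_left (ZMod.val_lt _)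
            exact Nat.div_pos (Nat.le_of_dvd hcard hdvd) (NeZero.pos n)
        _ = p ^ m - 1 := Nat.div_mul_cancel hdvd
    rw [Finset.prod_congr rfl fun D _ => h1 D, Finset.prod_pow_eq_pow_sum,
      digit_total hp P hP hm (sum_resid u) h, pow_mul, hw]
  -- the value of the character sum
  obtain ⟨z, hz⟩ := HasEnoughRootsOfUnity.exists_primitiveRoot L n
  have hq0 : quad (ch τ (u 0 : ZMod n)) (ch τ (u 1 : ZMod n)) (ch τ (u 2 : ZMod n))
      (ch τ (u 3 : ZMod n)) (ch τ (u 4 : ZMod n)) ≠ 0 := by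
    intro h0
    rw [h0, zero_pow two_ne_zero, mul_zero] at heq
    have h1 : ε * ((4 : L) * (Fintype.card K : L) ^ 7) ≠ 0 := by
      apply mul_ne_zero
      · rintro rfl
        norm_num at hε
      · apply mul_ne_zero (by norm_num)
        apply pow_ne_zero
        exact_mod_cast Fintype.card_ne_zero
    exact h1 heq.symm
  obtain ⟨s, hs⟩ := v_cyclotomic_int v hpn hz hvp (quad_mem_adjoin hτ hdvd _ _ _ _ _ hz) hq0
  obtain ⟨c, hc⟩ := v_int_pow v hp hvp (m := 2) two_ne_zero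
  have h4 : v (4 : L) = v (p : L) ^ (c * 2) := by
    have : (4 : L) = ((2 : ℤ) : L) ^ 2 := by norm_num
    rw [this, map_pow, hc, ← pow_mul]
  have hvε : v ε = 1 := by
    have h1 := congrArg v hε
    rw [map_pow, map_one] at h1
    exact (pow_eq_one_iff_of_nonneg zero_le two_ne_zero).1 h1
  have hfin := congrArg v heq
  rw [map_mul, map_mul, map_mul, hvε, one_mul, map_pow, map_pow, hten, hs, h4, hK, Nat.cast_pow,
    map_pow, ← pow_mul, ← pow_mul, ← pow_add, ← pow_add] at hfin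
  have hexp : T + s * 2 = c * 2 + m * 7 :=
    (pow_right_strictAnti₀ (zero_lt_iff.2 hvp0) hvp).injective hfin
  obtain ⟨x, hx⟩ := hh
  omega

theorem sq_ne_place {L K : Type} [Field L] [CharZero L] [IsAlgClosed L] [Field K] [Fintype K]
    {p n : ℕ} [hpf : Fact p.Prime] [NeZero n] (P : (ZMod n)ˣ) (hP : (P : ZMod n) = p)
    (hK : Fintype.card K = p ^ orderOf P)
    {τ : MulChar K L} (hτ : orderOf τ = Fintype.card K - 1) {ψ : AddChar K L}
    (hψ : ψ.IsPrimitive) (u : Fin 5 → ℤ) (h : (ZMod n)ˣ)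
    (hh : Odd (orderOf P + ∑ᶠ g : Subgroup.zpowers P, total n (resid u) (g * h) / n)) :
    ten (ch τ (u 0 : ZMod n)) (ch τ (u 1 : ZMod n)) (ch τ (u 2 : ZMod n)) (ch τ (u 3 : ZMod n))
        (ch τ (u 4 : ZMod n)) ψ *
      quad (ch τ (u 0 : ZMod n)) (ch τ (u 1 : ZMod n)) (ch τ (u 2 : ZMod n))
        (ch τ (u 3 : ZMod n)) (ch τ (u 4 : ZMod n)) ^ 2 ≠ 4 * (Fintype.card K : L) ^ 7 := by
  have h1 := sq_ne_place_sign P hP hK hτ hψ u h hh (one_pow 2)
  rwa [one_mul] at h1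

/-- The criterion for `n` a power of an odd prime. -/
theorem sq_ne_aux {L K : Type} [Field L] [CharZero L] [IsAlgClosed L] [Field K] [Fintype K]
    {p r k m n : ℕ} [hpf : Fact p.Prime] [hrf : Fact r.Prime] (hn : n = r ^ k) [NeZero n]
    (hr2 : r ≠ 2) (hk : 0 < k) (hpr : p ≠ r) (hm : Odd m)
    (hord : ∀ j : ℕ, (p : ZMod n) ^ j = 1 ↔ m ∣ j) (hK : Fintype.card K = p ^ m)
    {τ : MulChar K L} (hτ : orderOf τ = Fintype.card K - 1) {ψ : AddChar K L}
    (hψ : ψ.IsPrimitive) (u : Fin 5 → ℤ) (hu : ¬ IsSquare ((delta u : ℤ) : ZMod r)) :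
    ten (ch τ (u 0 : ZMod n)) (ch τ (u 1 : ZMod n)) (ch τ (u 2 : ZMod n)) (ch τ (u 3 : ZMod n))
        (ch τ (u 4 : ZMod n)) ψ *
      quad (ch τ (u 0 : ZMod n)) (ch τ (u 1 : ZMod n)) (ch τ (u 2 : ZMod n))
        (ch τ (u 3 : ZMod n)) (ch τ (u 4 : ZMod n)) ^ 2 ≠ 4 * (Fintype.card K : L) ^ 7 := by
  have hp : p.Prime := hpf.out
  have hr : r.Prime := hrf.out
  have hcop : Nat.Coprime p n := by
    rw [hn]
    exact ((Nat.coprime_primes hp hr).2 hpr).pow_right k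
  let P : (ZMod n)ˣ := ZMod.unitOfCoprime p hcop
  have hP : (P : ZMod n) = p := ZMod.coe_unitOfCoprime p hcop
  have hPpow : ∀ j : ℕ, P ^ j = 1 ↔ m ∣ j := by
    intro j
    rw [← hord j, ← hP, ← Units.val_pow_eq_pow_val, Units.val_eq_one]
  have hordP : orderOf P = m := by
    apply Nat.dvd_antisymm
    · exact orderOf_dvd_of_pow_eq_one ((hPpow m).2 dvd_rfl)
    · exact (hPpow _).1 (pow_orderOf_eq_one P)
  have hcardH : Nat.card (Subgroup.zpowers P) = m := by rw [Nat.card_zpowers, hordP]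
  obtain ⟨h, hh⟩ := exists_even_aux (ι := Fin 10) hn hr2 hk (by decide) (resid u)
    (resid_not_dvd hu) (sum_resid u) (by rw [prod_resid]; exact hu) (Subgroup.zpowers P)
    (by rw [hcardH]; exact hm)
  refine sq_ne_place P hP (by rw [hordP]; exact hK) hτ hψ u h ?_
  rw [hordP]
  exact hm.add_even hh

/-- **Block (E2).** -/
theorem sq_ne {L K : Type} [Field L] [CharZero L] [IsAlgClosed L] [Field K] [Fintype K]
    {p r k m : ℕ} [hpf : Fact p.Prime] [hrf : Fact r.Prime]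
    (hr2 : r ≠ 2) (hk : 0 < k) (hpr : p ≠ r) (hm : Odd m)
    (hord : ∀ j : ℕ, (p : ZMod (r ^ k)) ^ j = 1 ↔ m ∣ j) (hK : Fintype.card K = p ^ m)
    {τ : MulChar K L} (hτ : orderOf τ = Fintype.card K - 1) {ψ : AddChar K L}
    (hψ : ψ.IsPrimitive) (u : Fin 5 → ℤ) (hu : ¬ IsSquare ((delta u : ℤ) : ZMod r)) :
    ten (ch τ (u 0 : ZMod (r ^ k))) (ch τ (u 1 : ZMod (r ^ k))) (ch τ (u 2 : ZMod (r ^ k)))
        (ch τ (u 3 : ZMod (r ^ k))) (ch τ (u 4 : ZMod (r ^ k))) ψ *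
      quad (ch τ (u 0 : ZMod (r ^ k))) (ch τ (u 1 : ZMod (r ^ k))) (ch τ (u 2 : ZMod (r ^ k)))
        (ch τ (u 3 : ZMod (r ^ k))) (ch τ (u 4 : ZMod (r ^ k))) ^ 2 ≠
      4 * (Fintype.card K : L) ^ 7 := by
  have : NeZero (r ^ k) := ⟨pow_ne_zero _ hrf.out.ne_zero⟩
  exact sq_ne_aux rfl hr2 hk hpr hm hord hK hτ hψ u hu

end Pool.Agent.Helper44.QC
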