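import Pool.Agent.Helper44.QC.Degen

/-!
# The sum over the complement of the quadrilateral in the self-dual case

If five characters of the field with `p ^ (2 f)` elements are killed by `p ^ f + 1`, and a power of
an odd prime `r` which divides `p ^ f + 1` kills one of the ten characters belonging to the curves
at the boundary, the sum over the complement of the quadrilateral is not minus twice the number of
elements of the field.
-/

open Finset

namespace Pool.Agent.Helper44.QC

open Pool.Agent.Helper73.LF Pool.Agent.Helper73.QC Pool.Agent.Helper73.KT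

universe v w

variable {K : Type v} {L : Type w} [Field K] [Fintype K] [Field L] {κ : Type w} [Field κ]

/-- the reduction of a character -/
noncomputable def red (φ : integralClosure ℤ L →+* κ) (χ : MulChar K L) : MulChar K κ :=
  (liftR χ).ringHomComp φ

theorem red_apply (φ : integralClosure ℤ L →+* κ) (χ : MulChar K L) (x : K) :
    red φ χ x = φ (liftR χ x) := rfl

theorem red_mul (φ : integralClosure ℤ L →+* κ) (χ χ' : MulChar K L) :
    red φ (χ * χ') = red φ χ * red φ χ' := by
  ext x
  rw [MulChar.mul_apply, red_apply, red_apply, red_apply, ← map_mul]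
  congr 1

theorem red_one (φ : integralClosure ℤ L →+* κ) : red φ (1 : MulChar K L) = 1 := by
  ext x
  rw [red_apply, MulChar.one_apply_coe, ← map_one φ]
  congr 1
  exact Subtype.ext (MulChar.one_apply_coe x)

theorem red_pow (φ : integralClosure ℤ L →+* κ) (χ : MulChar K L) (m : ℕ) :
    red φ (χ ^ m) = red φ χ ^ m := by
  induction m with
  | zero => rw [pow_zero, pow_zero, red_one]
  | succ m ih => rw [pow_succ, pow_succ, red_mul, ih]

/-- The sum is not minus twice the number of elements. -/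
theorem quad_ne [CharZero L] {p f r j : ℕ} [Fact p.Prime] [CharP K p]
    (hK : Fintype.card K = p ^ (2 * f)) [Fact r.Prime] (hr : r ≠ 2) (hrd : r ∣ p ^ f + 1)
    {A B C D E : MulChar K L} (hA : A ^ (p ^ f + 1) = 1) (hB : B ^ (p ^ f + 1) = 1)
    (hC : C ^ (p ^ f + 1) = 1) (hD : D ^ (p ^ f + 1) = 1) (hE : E ^ (p ^ f + 1) = 1)
    (h : A ^ r ^ j = 1 ∨ B ^ r ^ j = 1 ∨ C ^ r ^ j = 1 ∨ D ^ r ^ j = 1 ∨ E ^ r ^ j = 1 ∨
      (A * B * E) ^ r ^ j = 1 ∨ (C * D * E) ^ r ^ j = 1 ∨ (A * C * E) ^ r ^ j = 1 ∨
      (B * D * E) ^ r ^ j = 1 ∨ (A * B * C * D * E) ^ r ^ j = 1) :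
    quad A B C D E ≠ -2 * Fintype.card K := by
  classical
  have hrp : r.Prime := Fact.out
  obtain ⟨κ, _, φ, hch⟩ := exists_hom L r
  have h20 : (2 : κ) ≠ 0 := by
    intro h
    have h1 : ((2 : ℕ) : κ) = 0 := by exact_mod_cast h
    rw [CharP.cast_eq_zero_iff κ r] at h1
    have h9 := Nat.le_of_dvd two_pos h1
    have := hrp.two_le
    omega
  have hN : (p : κ) ^ f = -1 := by
    have h1 : ((p ^ f + 1 : ℕ) : κ) = 0 := (CharP.cast_eq_zero_iff κ r _).2 hrd
    push_cast at h1
    linear_combination h1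
  have hk : ∀ {χ : MulChar K L}, χ ^ (p ^ f + 1) = 1 → red φ χ ^ (p ^ f + 1) = 1 := by
    intro χ hχ
    rw [← red_pow, hχ, red_one]
  have hkill : ∀ {χ : MulChar K L}, χ ^ r ^ j = 1 → red φ χ = 1 := by
    intro χ hχ
    ext x
    rw [MulChar.one_apply_coe]
    apply eq_one_of_pow (r := r) (e := j)
    rw [← MulChar.pow_apply_coe, ← red_pow, hχ, red_one, MulChar.one_apply_coe]
  have h6 := quad_degenerate hK hN h20 (hk hA) (hk hB) (hk hC) (hk hD) (hk hE) (by
    rcases h with h | h | h | h | h | h | h | h | h | h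
    · exact Or.inl (hkill h)
    · exact Or.inr (Or.inl (hkill h))
    · exact Or.inr (Or.inr (Or.inl (hkill h)))
    · exact Or.inr (Or.inr (Or.inr (Or.inl (hkill h))))
    · exact Or.inr (Or.inr (Or.inr (Or.inr (Or.inl (hkill h)))))
    · refine Or.inr (Or.inr (Or.inr (Or.inr (Or.inr (Or.inl ?_)))))
      rw [← red_mul, ← red_mul, hkill h]
    · refine Or.inr (Or.inr (Or.inr (Or.inr (Or.inr (Or.inr (Or.inl ?_))))))
      rw [← red_mul, ← red_mul, hkill h]
    · refine Or.inr (Or.inr (Or.inr (Or.inr (Or.inr (Or.inr (Or.inr (Or.inl ?_)))))))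
      rw [← red_mul, ← red_mul, hkill h]
    · refine Or.inr (Or.inr (Or.inr (Or.inr (Or.inr (Or.inr (Or.inr (Or.inr (Or.inl ?_))))))))
      rw [← red_mul, ← red_mul, hkill h]
    · refine Or.inr (Or.inr (Or.inr (Or.inr (Or.inr (Or.inr (Or.inr (Or.inr (Or.inr ?_))))))))
      rw [← red_mul, ← red_mul, ← red_mul, ← red_mul, hkill h])
  intro hS
  have h3 : (∑ x, ∑ y, liftR A x * liftR B (1 - x) * liftR C y * liftR D (1 - y) *
      liftR E (x - y) : integralClosure ℤ L) = -2 * (Fintype.card K : integralClosure ℤ L) := by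
    apply Subtype.ext
    rw [quad_coe, hS]
    simp only [neg_mul, NegMemClass.coe_neg, MulMemClass.coe_mul, SubringClass.coe_natCast,
      neg_inj, mul_eq_mul_right_iff, Nat.cast_eq_zero, Fintype.card_ne_zero, or_false]
    exact (map_ofNat (algebraMap (integralClosure ℤ L) L) 2).symm
  have h4 := congrArg φ h3
  rw [map_sum] at h4
  have h5 : ∀ x : K, φ (∑ y, liftR A x * liftR B (1 - x) * liftR C y * liftR D (1 - y) *
      liftR E (x - y)) =
      ∑ y : K, red φ A x * red φ B (1 - x) * red φ C y * red φ D (1 - y) * red φ E (x - y) := by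
    intro x
    rw [map_sum]
    refine sum_congr rfl fun y _ => ?_
    rw [map_mul, map_mul, map_mul, map_mul]
    rfl
  have hq : (Fintype.card K : κ) = 1 := by
    rw [hK, mul_comm 2 f, pow_mul, Nat.cast_pow, Nat.cast_pow, hN]
    ring
  rw [quad] at h6
  rw [sum_congr rfl fun x _ => h5 x, h6, map_mul, map_neg, map_natCast, map_ofNat, hq] at h4
  have h7 : (2 : κ) * 2 = 0 := by linear_combination h4
  rcases mul_eq_zero.1 h7 with h | h <;> exact h20 h

end Pool.Agent.Helper44.QC
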