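import Mathlib

/-!
# The cyclotomic field of conductor `n` is unramified at the primes not dividing `n`
-/

set_option autoImplicit false

namespace Pool.Agent.Helper44.QC

open Polynomial

variable {L Γ : Type*} [Field L] [LinearOrderedCommGroupWithZero Γ] (v : Valuation L Γ)

/-- Integers have value at most one. -/
theorem v_int_le (m : ℤ) : v (m : L) ≤ 1 := by
  have h : (m : L) ∈ v.integer := by
    exact intCast_mem v.integer m
  exact h

/-- Integers prime to `p` have value one. -/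
theorem v_int_eq {p : ℕ} (hp : p.Prime) (hv : v (p : L) < 1) {m : ℤ} (hm : ¬ (p : ℤ) ∣ m) :
    v (m : L) = 1 := by
  apply le_antisymm (v_int_le v m)
  by_contra h
  push Not at h
  have hcop : IsCoprime (p : ℤ) m :=
    (Int.prime_iff_natAbs_prime.mpr (by simpa using hp)).coprime_iff_not_dvd.mpr hm
  obtain ⟨a, b, hab⟩ := hcop
  have h1 : (1 : L) = (a : L) * (p : L) + (b : L) * (m : L) := by
    have := congrArg (Int.cast : ℤ → L) hab
    push_cast at this
    exact this.symm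
  have h2 : v ((a : L) * (p : L) + (b : L) * (m : L)) < 1 := by
    apply v.map_add_lt
    · rw [map_mul]
      exact (mul_le_of_le_one_left' (v_int_le v a)).trans_lt hv
    · rw [map_mul]
      exact (mul_le_of_le_one_left' (v_int_le v b)).trans_lt h
  rw [← h1, map_one] at h2
  exact lt_irrefl _ h2

/-- The value of a nonzero integer is a power of the value of `p`. -/
theorem v_int_pow {p : ℕ} (hp : p.Prime) (hv : v (p : L) < 1) {m : ℤ} (hm : m ≠ 0) :
    ∃ k : ℕ, v (m : L) = v (p : L) ^ k := by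
  have hfin : FiniteMultiplicity (p : ℤ) m := by
    rw [Int.finiteMultiplicity_iff]
    exact ⟨by simpa using hp.one_lt.ne', hm⟩
  obtain ⟨c, hc, hc2⟩ := hfin.exists_eq_pow_mul_and_not_dvd
  refine ⟨multiplicity (p : ℤ) m, ?_⟩
  conv_lhs => rw [hc]
  push_cast
  rw [map_mul, map_pow, v_int_eq v hp hv hc2, mul_one]

/-- Elements of `ℤ[z]` have value at most one. -/
theorem v_adjoin_le {n : ℕ} (hn : n ≠ 0) {z : L} (hz : z ^ n = 1) {x : L}
    (hx : x ∈ Algebra.adjoin ℤ {z}) : v x ≤ 1 := by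
  have hvz : v z ≤ 1 := by
    have h1 : v z ^ n = 1 := by rw [← map_pow, hz, map_one]
    by_contra h
    push Not at h
    exact (one_lt_pow₀ h hn).ne' h1
  have h2 : Algebra.adjoin ℤ {z} ≤ subalgebraOfSubring v.integer := by
    rw [Algebra.adjoin_le_iff, Set.singleton_subset_iff]
    exact hvz
  exact h2 hx

/-- Frobenius on `ℤ[z]` modulo `p`. -/
theorem frob_adjoin {p n f : ℕ} (hp : p.Prime) (hf : n ∣ p ^ f - 1) {z : L} (hz : z ^ n = 1)
    {x : L} (hx : x ∈ Algebra.adjoin ℤ {z}) :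
    ∃ y ∈ Algebra.adjoin ℤ {z}, x ^ p ^ f - x = (p : L) * y := by
  have hq : 1 ≤ p ^ f := Nat.one_le_pow _ _ hp.pos
  have hqne : p ^ f ≠ 0 := by omega
  have hpA : (p : L) ∈ Algebra.adjoin ℤ {z} := by
    exact natCast_mem (Algebra.adjoin ℤ {z}) p
  induction hx using Algebra.adjoin_induction with
  | mem x hx =>
    rw [Set.mem_singleton_iff] at hx
    subst hx
    refine ⟨0, zero_mem _, ?_⟩
    obtain ⟨k, hk⟩ := hf
    have h1 : p ^ f = n * k + 1 := by omega
    rw [h1, pow_succ, pow_mul, hz, one_pow, one_mul, sub_self, mul_zero]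
  | algebraMap m =>
    -- integers: Fermat
    have h1 : ((p : ℤ)) ∣ m ^ p ^ f - m := by
      have : Fact p.Prime := ⟨hp⟩
      rw [← ZMod.intCast_zmod_eq_zero_iff_dvd]
      push_cast
      rw [ZMod.pow_card_pow, sub_self]
    obtain ⟨c, hc⟩ := h1
    refine ⟨(c : L), ?_, ?_⟩
    · exact intCast_mem (Algebra.adjoin ℤ {z}) c
    · have h2 := congrArg (Int.cast : ℤ → L) hc
      push_cast at h2
      simpa using h2
  | add x y hx hy hx' hy' =>
    obtain ⟨a, ha, ha'⟩ := hx'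
    obtain ⟨b, hb, hb'⟩ := hy'
    -- (x + y) ^ q = x ^ q + y ^ q + p c
    have h1 : ∃ c ∈ Algebra.adjoin ℤ {z}, (x + y) ^ p ^ f = x ^ p ^ f + y ^ p ^ f + (p : L) * c := by
      let x' : Algebra.adjoin ℤ {z} := ⟨x, hx⟩
      let y' : Algebra.adjoin ℤ {z} := ⟨y, hy⟩
      obtain ⟨c, hc⟩ := exists_add_pow_prime_pow_eq hp x' y' f
      refine ⟨x * y * c, mul_mem (mul_mem hx hy) c.2, ?_⟩
      have h3 := congrArg (Subtype.val : Algebra.adjoin ℤ {z} → L) hc
      push_cast at h3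
      rw [h3]
      ring
    obtain ⟨c, hc, hc'⟩ := h1
    refine ⟨a + b + c, add_mem (add_mem ha hb) hc, ?_⟩
    rw [hc']
    linear_combination ha' + hb'
  | mul x y hx hy hx' hy' =>
    obtain ⟨a, ha, ha'⟩ := hx'
    obtain ⟨b, hb, hb'⟩ := hy'
    refine ⟨a * y + x * b + (p : L) * a * b, ?_, ?_⟩
    · exact add_mem (add_mem (mul_mem ha hy) (mul_mem hx hb)) (mul_mem (mul_mem hpA ha) hb)
    · rw [mul_pow]
      have h1 : x ^ p ^ f = x + (p : L) * a := by linear_combination ha'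
      have h2 : y ^ p ^ f = y + (p : L) * b := by linear_combination hb'
      rw [h1, h2]
      ring

/-- The values of the elements of `ℤ[z]` which are not too small. -/
theorem v_adjoin_pow [CharZero L] {p n f : ℕ} (hp : p.Prime) (hn : n ≠ 0) (hf : n ∣ p ^ f - 1)
    (hf0 : f ≠ 0) {z : L} (hz : z ^ n = 1) (j : ℕ) :
    ∀ x ∈ Algebra.adjoin ℤ {z}, v (p : L) ^ j ≤ v x → ∃ k : ℕ, v x = v (p : L) ^ k := by
  have hp0 : v (p : L) ≠ 0 := by
    rw [Ne, map_eq_zero]
    exact_mod_cast hp.ne_zero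
  induction j with
  | zero =>
    intro x hx h
    exact ⟨0, le_antisymm (by rw [pow_zero]; exact v_adjoin_le v hn hz hx) h⟩
  | succ j ih =>
    intro x hx h
    by_cases h1 : v x = 1
    · exact ⟨0, by rw [h1, pow_zero]⟩
    · have h2 : v x < 1 := lt_of_le_of_ne (v_adjoin_le v hn hz hx) h1
      obtain ⟨y, hy, hxy⟩ := frob_adjoin hp hf hz hx
      have hq : 2 ≤ p ^ f := hp.two_le.trans (Nat.le_self_pow hf0 p)
      -- `x (x ^ (q - 1) - 1) = p y`
      have h3 : x * (x ^ (p ^ f - 1) - 1) = (p : L) * y := by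
        rw [← hxy, mul_sub, mul_one, ← pow_succ']
        congr 2
        omega
      have h4 : v (x ^ (p ^ f - 1) - 1) = 1 := by
        have h5 : v (x ^ (p ^ f - 1)) < v (1 : L) := by
          rw [map_pow, map_one]
          exact pow_lt_one₀ zero_le h2 (by omega)
        rw [v.map_sub_eq_of_lt_right h5, map_one]
      have h5 : v x = v (p : L) * v y := by
        have h6 := congrArg v h3
        rw [map_mul, map_mul, h4, mul_one] at h6
        exact h6
      obtain ⟨k, hk⟩ := ih y hy (by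
        rw [h5, pow_succ'] at h
        exact le_of_mul_le_mul_left h (zero_lt_iff.mpr hp0))
      exact ⟨k + 1, by rw [h5, hk, pow_succ']⟩

/-- The value of a nonzero element of `ℤ[z]` is at least a power of the value of `p`. -/
theorem le_v_adjoin [CharZero L] {p n : ℕ} (hp : p.Prime) (hn : n ≠ 0)
    (hv : v (p : L) < 1) {z : L} (hz : z ^ n = 1) {x : L} (hx : x ∈ Algebra.adjoin ℤ {z})
    (hx0 : x ≠ 0) : ∃ j : ℕ, v (p : L) ^ j ≤ v x := by
  have hzi : IsIntegral ℤ z := by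
    refine ⟨X ^ n - 1, monic_X_pow_sub_C 1 hn, ?_⟩
    simp [hz]
  have hxi : IsIntegral ℤ x := by
    have : Algebra.adjoin ℤ {z} ≤ integralClosure ℤ L := by
      rw [Algebra.adjoin_le_iff, Set.singleton_subset_iff]
      exact hzi
    exact this hx
  have hc : (minpoly ℤ x).coeff 0 ≠ 0 := by
    intro h0
    have h1 : minpoly ℚ x = (minpoly ℤ x).map (algebraMap ℤ ℚ) :=
      minpoly.isIntegrallyClosed_eq_field_fractions' ℚ hxi
    have hxq : IsIntegral ℚ x := hxi.tower_top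
    apply minpoly.coeff_zero_ne_zero hxq hx0
    rw [h1, coeff_map, h0, map_zero]
  obtain ⟨k, hk⟩ := v_int_pow v hp hv hc
  refine ⟨k, ?_⟩
  have h1 : aeval x (divX (minpoly ℤ x)) * x + ((minpoly ℤ x).coeff 0 : L) = 0 := by
    have h2 := congrArg (aeval x) (divX_mul_X_add (minpoly ℤ x))
    rw [map_add, map_mul, aeval_X, aeval_C, minpoly.aeval] at h2
    simpa using h2
  have h3 : ((minpoly ℤ x).coeff 0 : L) = -(aeval x (divX (minpoly ℤ x)) * x) := by
    linear_combination h1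
  have h4 : aeval x (divX (minpoly ℤ x)) ∈ Algebra.adjoin ℤ {z} := by
    have h5 : Algebra.adjoin ℤ {x} ≤ Algebra.adjoin ℤ {z} := by
      rw [Algebra.adjoin_le_iff, Set.singleton_subset_iff]
      exact hx
    exact h5 (aeval_mem_adjoin_singleton ℤ x)
  rw [← hk, h3, Valuation.map_neg, map_mul]
  exact mul_le_of_le_one_left' (v_adjoin_le v hn hz h4)

/-- All values of the nonzero elements of `ℤ[z]` are powers of the value of `p`. -/
theorem v_cyclotomic_int [CharZero L] {p n : ℕ} [hp : Fact p.Prime] (hpn : ¬ p ∣ n) {z : L}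
    (hz : IsPrimitiveRoot z n) (hvp : v (p : L) < 1) {x : L} (hx : x ∈ Algebra.adjoin ℤ {z})
    (hx0 : x ≠ 0) : ∃ k : ℕ, v x = v (p : L) ^ k := by
  have hn : n ≠ 0 := by
    rintro rfl
    exact hpn (dvd_zero p)
  obtain ⟨j, hj⟩ := le_v_adjoin v hp.out hn hvp hz.pow_eq_one hx hx0
  have hcop : Nat.Coprime p n := (Nat.Prime.coprime_iff_not_dvd hp.out).mpr hpn
  have hf : n ∣ p ^ n.totient - 1 :=
    (Nat.modEq_iff_dvd' (Nat.one_le_pow _ _ hp.out.pos)).mp (Nat.ModEq.pow_totient hcop).symm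
  exact v_adjoin_pow v hp.out hn hf (Nat.totient_pos.mpr (Nat.pos_of_ne_zero hn)).ne'
    hz.pow_eq_one j x hx hj

/-- A nonzero integer multiple of an element of `ℚ[z]` lies in `ℤ[z]`. -/
theorem clear_den [CharZero L] {z x : L} (hx : x ∈ Algebra.adjoin ℚ {z}) :
    ∃ m : ℤ, m ≠ 0 ∧ (m : L) * x ∈ Algebra.adjoin ℤ {z} := by
  have hint : ∀ m : ℤ, (m : L) ∈ Algebra.adjoin ℤ {z} := fun m => by
    exact intCast_mem (Algebra.adjoin ℤ {z}) m
  induction hx using Algebra.adjoin_induction with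
  | mem x hx =>
    refine ⟨1, one_ne_zero, ?_⟩
    rw [Int.cast_one, one_mul]
    exact Algebra.subset_adjoin hx
  | algebraMap q =>
    refine ⟨q.den, by exact_mod_cast q.den_ne_zero, ?_⟩
    have h1 : (((q.den : ℤ) : ℤ) : L) * algebraMap ℚ L q = ((q.num : ℤ) : L) := by
      rw [eq_ratCast]
      have h2 : (q.den : ℚ) * q = q.num := Rat.den_mul_eq_num q
      have h3 := congrArg (Rat.cast : ℚ → L) h2
      push_cast at h3 ⊢
      exact h3
    rw [h1]
    exact hint _
  | add x y hx hy hx' hy' =>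
    obtain ⟨a, ha, ha'⟩ := hx'
    obtain ⟨b, hb, hb'⟩ := hy'
    refine ⟨a * b, mul_ne_zero ha hb, ?_⟩
    have h1 : ((a * b : ℤ) : L) * (x + y) = (b : L) * ((a : L) * x) + (a : L) * ((b : L) * y) := by
      push_cast
      ring
    rw [h1]
    exact add_mem (mul_mem (hint _) ha') (mul_mem (hint _) hb')
  | mul x y hx hy hx' hy' =>
    obtain ⟨a, ha, ha'⟩ := hx'
    obtain ⟨b, hb, hb'⟩ := hy'
    refine ⟨a * b, mul_ne_zero ha hb, ?_⟩
    have h1 : ((a * b : ℤ) : L) * (x * y) = ((a : L) * x) * ((b : L) * y) := by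
      push_cast
      ring
    rw [h1]
    exact mul_mem ha' hb'

/-- **The field `ℚ(ζ_n)` is unramified at the primes not dividing `n`**: all values are powers
of the value of `p`. -/
theorem v_cyclotomic [CharZero L] {p n : ℕ} (hp : p.Prime) (hn : n ≠ 0) (hpn : ¬ p ∣ n)
    (hv : v (p : L) < 1) {z : L} (hz : z ^ n = 1) {x : L} (hx : x ∈ Algebra.adjoin ℚ {z})
    (hx0 : x ≠ 0) : ∃ k : ℤ, v x = v (p : L) ^ k := by
  have hp0 : v (p : L) ≠ 0 := by
    rw [Ne, map_eq_zero]
    exact_mod_cast hp.ne_zero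
  obtain ⟨m, hm, hmx⟩ := clear_den hx
  have hm0 : (m : L) ≠ 0 := by exact_mod_cast hm
  obtain ⟨j, hj⟩ := le_v_adjoin v hp hn hv hz hmx (mul_ne_zero hm0 hx0)
  have hcop : Nat.Coprime p n := (Nat.Prime.coprime_iff_not_dvd hp).mpr hpn
  have hf : n ∣ p ^ n.totient - 1 := by
    have h1 := Nat.ModEq.pow_totient hcop
    exact (Nat.modEq_iff_dvd' (Nat.one_le_pow _ _ hp.pos)).mp h1.symm
  have hf0 : n.totient ≠ 0 := (Nat.totient_pos.mpr (Nat.pos_of_ne_zero hn)).ne'
  obtain ⟨k, hk⟩ := v_adjoin_pow v hp hn hf hf0 hz j _ hmx hj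
  obtain ⟨l, hl⟩ := v_int_pow v hp hv hm
  refine ⟨(k : ℤ) - (l : ℤ), ?_⟩
  rw [map_mul, hl] at hk
  rw [zpow_sub₀ hp0, zpow_natCast, zpow_natCast, eq_div_iff (pow_ne_zero _ hp0), mul_comm]
  exact hk

end Pool.Agent.Helper44.QC
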